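import Mathlib

set_option autoImplicit false

/-!
# Primes `≡ 1 mod |n'|` do not have `n` as a primitive root
-/

namespace Pool.Agent.U53.MS

open NumberTheorySymbols

lemma jac_one (n' : ℤ) (hmod : n' % 4 = 1) (p : ℕ) (hp : Odd p) (hp1 : p ≡ 1 [MOD n'.natAbs]) :
    jacobiSym n' p = 1 := by
  have h1 : jacobiSym (p : ℤ) n'.natAbs = 1 := by
    rw [jacobiSym.mod_left' (a₂ := 1)]
    · exact jacobiSym.one_left _
    · exact_mod_cast hp1
  rcases lt_or_ge n' 0 with hneg | hpos
  · have e : n' = -((n'.natAbs : ℕ) : ℤ) := by omega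
    have hN : n'.natAbs % 4 = 3 := by omega
    have hNodd : Odd n'.natAbs := Nat.odd_iff.2 (by omega)
    rw [e, jacobiSym.neg _ hp]
    rcases Nat.odd_mod_four_iff.1 (Nat.odd_iff.1 hp) with h4 | h4
    · rw [ZMod.χ₄_nat_one_mod_four h4, one_mul, jacobiSym.quadratic_reciprocity_one_mod_four' hNodd h4, h1]
    · rw [ZMod.χ₄_nat_three_mod_four h4, jacobiSym.quadratic_reciprocity_three_mod_four hN h4, h1]
      norm_num
  · have e : n' = ((n'.natAbs : ℕ) : ℤ) := by omega
    have hN : n'.natAbs % 4 = 1 := by omega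
    rw [e, jacobiSym.quadratic_reciprocity_one_mod_four hN hp]
    exact h1

/-- if `n` is a primitive root modulo the prime `p` then `p ≢ 1 mod |n'|` -/
theorem not_one_mod (n n' m : ℤ) (hsq : Squarefree n') (hn1 : n' ≠ 1) (hmod : n' % 4 = 1)
    (hn : n = n' * m ^ 2) (p : ℕ) (hp : p.Prime) (ho : orderOf (n : ZMod p) = p - 1) :
    ¬ p ≡ 1 [MOD n'.natAbs] := by
  intro hp1
  haveI : Fact p.Prime := ⟨hp⟩
  have hn0 : n' ≠ 0 := hsq.ne_zero
  have hN : 3 ≤ n'.natAbs := by omega
  rcases hp.eq_two_or_odd' with h2 | hodd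
  · rw [h2] at hp1
    have h3 : (2 : ℕ) % n'.natAbs = 1 % n'.natAbs := hp1
    rw [Nat.mod_eq_of_lt (by omega), Nat.mod_eq_of_lt (by omega)] at h3
    omega
  · have hj := jac_one n' hmod p hodd hp1
    have hs : IsSquare (n' : ZMod p) := ZMod.isSquare_of_jacobiSym_eq_one hj
    obtain ⟨r, hr⟩ := hs
    have hp3 : 3 ≤ p := by
      have := hp.two_le
      rcases hodd with ⟨k, hk⟩
      omega
    set z : ZMod p := r * (m : ZMod p) with hz
    have hnz : (n : ZMod p) = z ^ 2 := by
      rw [hn, hz]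
      push_cast
      rw [hr]
      ring
    have hz0 : z ≠ 0 := by
      intro h0
      rw [hnz, h0] at ho
      have : orderOf ((0 : ZMod p) ^ 2) = 0 := by
        rw [orderOf_eq_zero_iff']
        intro k hk
        rw [← pow_mul, zero_pow (by omega)]
        exact zero_ne_one
      omega
    have h1 : (n : ZMod p) ^ ((p - 1) / 2) = 1 := by
      rw [hnz, ← pow_mul]
      have : 2 * ((p - 1) / 2) = p - 1 := by
        rcases hodd with ⟨k, hk⟩
        omega
      rw [this]
      exact ZMod.pow_card_sub_one_eq_one hz0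
    have h2 := orderOf_le_of_pow_eq_one (by omega) h1
    omega

end Pool.Agent.U53.MS
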