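import Pool.Agent.U53.MS.Win
import Pool.Agent.U53.MS.Art

set_option autoImplicit false

/-!
# Windows in which almost all the primes are `≡ 1 mod N`, in terms of counting functions
-/

namespace Pool.Agent.U53.MS

open Finset Filter Topology
open Pool.Agent.H378R2

lemma tq_eq (Q Q' : ℕ → Prop) [DecidablePred Q] [DecidablePred Q'] (n Y : ℕ) (h : ∀ k, Q k ↔ Q' (n + k)) :
    tq Q n Y = ∑ p ∈ (Ioc n (n + Y)).filter (fun p => p.Prime ∧ Q' p), Real.log p := by
  classical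
  unfold tq th
  rw [← sum_filter, filter_filter]
  refine sum_bij (fun h _ => n + h) ?_ ?_ ?_ ?_
  · intro k hk
    rw [mem_filter, mem_Icc] at hk
    rw [mem_filter, mem_Ioc]
    exact ⟨by omega, hk.2.2, (h k).1 hk.2.1⟩
  · intro k _ l _ hkl
    exact Nat.add_left_cancel hkl
  · intro p hp
    rw [mem_filter, mem_Ioc] at hp
    refine ⟨p - n, ?_, by omega⟩
    have e : n + (p - n) = p := by omega
    rw [mem_filter, mem_Icc, h, e]
    exact ⟨by omega, hp.2.2, hp.2.1⟩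
  · intro k _
    rfl

open Classical in
/-- the windows -/
theorem win (N : ℕ) (hN : 2 ≤ N) (hsq : Squarefree N) : ∃ c : ℝ, 0 < c ∧ ∀ ε : ℝ, 0 < ε →
    ∃ η : ℝ, 0 < η ∧ η ≤ 1 ∧ ∃ X0 : ℝ, ∀ X : ℝ, X0 ≤ X →
      X ^ (99 / 100 : ℝ) ≤ (((Icc 1 ⌊3 * X⌋₊).filter (fun a : ℕ => X < a ∧
        ((a + ⌊(Real.log X) ^ (1 + η)⌋₊ : ℕ) : ℝ) ≤ 4 * X ∧
        (((Ioc a (a + ⌊(Real.log X) ^ (1 + η)⌋₊)).filter (fun p => p.Prime ∧ ¬ Gd N p)).card : ℝ) ≤
          ε * (⌊(Real.log X) ^ (1 + η)⌋₊ / Real.log X))).card : ℝ) ∧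
      X ^ (99 / 100 : ℝ) ≤ (((Icc 1 ⌊3 * X⌋₊).filter (fun a : ℕ => X < a ∧
        ((a + ⌊(Real.log X) ^ (1 + η)⌋₊ : ℕ) : ℝ) ≤ 4 * X ∧
        c * (⌊(Real.log X) ^ (1 + η)⌋₊ / Real.log X) ≤
          ((Ioc a (a + ⌊(Real.log X) ^ (1 + η)⌋₊)).filter Nat.Prime).card ∧
        (((Ioc a (a + ⌊(Real.log X) ^ (1 + η)⌋₊)).filter (fun p => p.Prime ∧ ¬ Gd N p)).card : ℝ) ≤
          ε * ((Ioc a (a + ⌊(Real.log X) ^ (1 + η)⌋₊)).filter Nat.Prime).card)).card : ℝ) := by
  obtain ⟨c₁, hc₁, hrows⟩ := rows_one N hN hsq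
  refine ⟨c₁ / 2, by positivity, fun ε hε => ?_⟩
  obtain ⟨η, hη0, hη1, X1, h1⟩ := hrows (ε / 2) (by positivity)
  have hlogtop : Tendsto Real.log atTop atTop := Real.tendsto_log_atTop
  have ev1 : ∀ᶠ X : ℝ in atTop, (Real.log X) ^ 2 ≤ X := by
    have h1 := (Real.isLittleO_pow_log_id_atTop (n := 2)).bound (show (0 : ℝ) < 1 by norm_num)
    filter_upwards [h1, eventually_ge_atTop (1 : ℝ)] with X h2 h3
    rw [Real.norm_of_nonneg (pow_nonneg (Real.log_nonneg h3) 2), id, Real.norm_of_nonneg (by linarith)] at h2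
    linarith
  obtain ⟨X2, h2⟩ := eventually_atTop.1 (ev1.and
    ((eventually_ge_atTop X1).and ((eventually_ge_atTop (1 : ℝ)).and (hlogtop.eventually_ge_atTop (2 : ℝ)))))
  refine ⟨η, hη0, hη1, X2, fun X hX => ?_⟩
  obtain ⟨g1, g3, g4, g5⟩ := h2 X hX
  obtain ⟨hA, hB⟩ := h1 X g3
  set L := Real.log X with hL
  set Y := ⌊L ^ (1 + η)⌋₊ with hY
  have hL0 : 0 < L := by linarith
  have hX0 : 0 < X := by linarith
  have hYX : (Y : ℝ) ≤ X := by
    refine le_trans (Nat.floor_le (by positivity)) (le_trans ?_ g1)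
    have := Real.rpow_le_rpow_of_exponent_le (show (1 : ℝ) ≤ L by linarith) (show 1 + η ≤ (2 : ℝ) by linarith)
    rwa [Real.rpow_two] at this
  have hl4 : Real.log (4 * X) ≤ 2 * L := by
    rw [Real.log_mul (by norm_num) hX0.ne']
    have : Real.log 4 ≤ 2 := by
      rw [show (4 : ℝ) = 2 ^ 2 by norm_num, Real.log_pow]
      have := Real.log_two_lt_d9
      push_cast; linarith
    linarith
  -- the bad primes
  have hbad : ∀ a : ℕ, N ∣ a → X < a →
      (((Ioc a (a + Y)).filter (fun p => p.Prime ∧ ¬ Gd N p)).card : ℝ) * L ≤ tq (fun h => ¬ Gd N h) a Y := by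
    intro a hd ha
    rw [tq_eq (fun h => ¬ Gd N h) (fun h => ¬ Gd N h) a Y (by
      intro k
      have : a + k ≡ 0 + k [MOD N] := Nat.ModEq.add_right _ ((Nat.modEq_zero_iff_dvd).2 hd)
      rw [zero_add] at this
      unfold Gd
      constructor
      · intro h h'
        exact h (this.symm.trans h')
      · intro h h'
        exact h (this.trans h')), ← nsmul_eq_mul, ← sum_const]
    refine sum_le_sum fun p hp => ?_
    rw [mem_filter, mem_Ioc] at hp
    apply Real.log_le_log hX0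
    have : (a : ℝ) < p := by exact_mod_cast hp.1.1
    linarith
  have hgood : ∀ a : ℕ, ((a + Y : ℕ) : ℝ) ≤ 4 * X →
      tq (fun _ => True) a Y ≤ (((Ioc a (a + Y)).filter Nat.Prime).card : ℝ) * (2 * L) := by
    intro a ha
    rw [tq_eq (fun _ => True) (fun _ => True) a Y (fun _ => Iff.rfl), ← nsmul_eq_mul, ← sum_const]
    have e : (Ioc a (a + Y)).filter (fun p => p.Prime ∧ True) = (Ioc a (a + Y)).filter Nat.Prime := by
      ext p
      simp
    rw [e]
    refine sum_le_sum fun p hp => ?_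
    rw [mem_filter, mem_Ioc] at hp
    have h3 : (p : ℝ) ≤ ((a + Y : ℕ) : ℝ) := by exact_mod_cast hp.1.2
    exact (Real.log_le_log (by exact_mod_cast hp.2.pos) (h3.trans ha)).trans hl4
  refine ⟨hA.trans ?_, hB.trans ?_⟩
  · have hsub : (Icc 1 ⌊3 * X⌋₊).filter (fun n : ℕ => N ∣ n ∧ X < n ∧ (n : ℝ) < 3 * X ∧
        tq (fun h => ¬ Gd N h) n Y ≤ ε / 2 * Y) ⊆ (Icc 1 ⌊3 * X⌋₊).filter (fun a : ℕ => X < a ∧
        ((a + Y : ℕ) : ℝ) ≤ 4 * X ∧
        (((Ioc a (a + Y)).filter (fun p => p.Prime ∧ ¬ Gd N p)).card : ℝ) ≤ ε * (Y / L)) := by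
      intro a ha
      rw [mem_filter] at ha ⊢
      obtain ⟨k0, k1, k2, k3, k4⟩ := ha
      have h4 : ((a + Y : ℕ) : ℝ) ≤ 4 * X := by push_cast; linarith
      refine ⟨k0, k2, h4, ?_⟩
      have h5 := (hbad a k1 k2).trans k4
      rw [← mul_div_assoc, le_div_iff₀ hL0]
      have h6 : 0 ≤ ε * (Y : ℝ) := by positivity
      linarith
    exact_mod_cast card_le_card hsub
  · have hsub : (Icc 1 ⌊3 * X⌋₊).filter (fun n : ℕ => N ∣ n ∧ X < n ∧ (n : ℝ) < 3 * X ∧
        c₁ * Y ≤ tq (fun _ => True) n Y ∧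
        tq (fun h => ¬ Gd N h) n Y ≤ ε / 2 * tq (fun _ => True) n Y) ⊆
        (Icc 1 ⌊3 * X⌋₊).filter (fun a : ℕ => X < a ∧ ((a + Y : ℕ) : ℝ) ≤ 4 * X ∧
        c₁ / 2 * (Y / L) ≤ ((Ioc a (a + Y)).filter Nat.Prime).card ∧
        (((Ioc a (a + Y)).filter (fun p => p.Prime ∧ ¬ Gd N p)).card : ℝ) ≤
          ε * ((Ioc a (a + Y)).filter Nat.Prime).card) := by
      intro a ha
      rw [mem_filter] at ha ⊢
      obtain ⟨k0, k1, k2, k3, k4, k5⟩ := ha
      have h4 : ((a + Y : ℕ) : ℝ) ≤ 4 * X := by push_cast; linarith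
      have h5 := (hbad a k1 k2).trans k5
      have h6 := hgood a h4
      refine ⟨k0, k2, h4, ?_, ?_⟩
      · rw [mul_div_assoc', div_le_iff₀ hL0]
        linarith
      · have h7 : (((Ioc a (a + Y)).filter (fun p => p.Prime ∧ ¬ Gd N p)).card : ℝ) * L ≤
            (ε * (((Ioc a (a + Y)).filter Nat.Prime).card : ℝ)) * L := by
          refine h5.trans ?_
          calc ε / 2 * tq (fun _ => True) a Y ≤
              ε / 2 * ((((Ioc a (a + Y)).filter Nat.Prime).card : ℝ) * (2 * L)) := by gcongr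
            _ = _ := by ring
        exact le_of_mul_le_mul_right h7 hL0
    exact_mod_cast card_le_card hsub

/-- counting functions -/
lemma cnt_add (R : ℕ → Prop) [DecidablePred R] (a Y : ℕ) :
    ((range (a + Y + 1)).filter R).card = ((range (a + 1)).filter R).card + ((Ioc a (a + Y)).filter R).card := by
  classical
  rw [← card_union_of_disjoint]
  · congr 1
    ext p
    rw [mem_union, mem_filter, mem_filter, mem_filter, mem_range, mem_range, mem_Ioc]
    constructor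
    · rintro ⟨h1, h2⟩
      rcases Nat.lt_or_ge p (a + 1) with h3 | h3
      · exact Or.inl ⟨h3, h2⟩
      · exact Or.inr ⟨by omega, h2⟩
    · rintro (⟨h1, h2⟩ | ⟨h1, h2⟩)
      · exact ⟨by omega, h2⟩
      · exact ⟨by omega, h2⟩
  · rw [disjoint_left]
    intro p hp hp'
    rw [mem_filter, mem_range] at hp
    rw [mem_filter, mem_Ioc] at hp'
    omega

lemma pi_add (a Y : ℕ) :
    Nat.primeCounting (a + Y) = Nat.primeCounting a + ((Ioc a (a + Y)).filter Nat.Prime).card := by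
  have h := cnt_add Nat.Prime a Y
  unfold Nat.primeCounting Nat.primeCounting'
  rw [Nat.count_eq_card_filter_range, Nat.count_eq_card_filter_range]
  exact h

/-- the number of the primes `p ≤ x` with primitive root `n` -/
noncomputable def P (n : ℤ) (x : ℕ) : ℕ :=
  ((range (x + 1)).filter (fun p : ℕ => p.Prime ∧ orderOf (n : ZMod p) = p - 1)).card

/-- integers with squarefree part `d ≡ 1 mod 4`, `d ≠ 1`, dividing `N` -/
def Fam (N : ℕ) (n : ℤ) : Prop := ∃ d m : ℤ, n = d * m ^ 2 ∧ d ∣ (N : ℤ) ∧ d % 4 = 1 ∧ d ≠ 1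

lemma P_le (N : ℕ) (hsq : Squarefree N) (n : ℤ) (hn : Fam N n) (a Y : ℕ) :
    (P n (a + Y) : ℝ) ≤ P n a + ((Ioc a (a + Y)).filter (fun p => p.Prime ∧ ¬ Gd N p)).card := by
  classical
  obtain ⟨d, m, h1, h2, h3, h4⟩ := hn
  have hdN : d.natAbs ∣ N := by
    have := Int.natAbs_dvd_natAbs.2 h2
    rwa [Int.natAbs_natCast] at this
  have hdsq : Squarefree d := by
    rw [← Int.squarefree_natAbs]
    exact hsq.squarefree_of_dvd hdN
  have h := cnt_add (fun p : ℕ => p.Prime ∧ orderOf (n : ZMod p) = p - 1) a Y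
  have h5 : ((Ioc a (a + Y)).filter (fun p : ℕ => p.Prime ∧ orderOf (n : ZMod p) = p - 1)).card ≤
      ((Ioc a (a + Y)).filter (fun p => p.Prime ∧ ¬ Gd N p)).card := by
    apply card_le_card
    intro p hp
    rw [mem_filter] at hp ⊢
    refine ⟨hp.1, hp.2.1, fun hg => ?_⟩
    exact not_one_mod n d m hdsq h4 h3 h1 p hp.2.1 hp.2.2 (hg.of_dvd hdN)
  unfold P
  rw [h]
  exact_mod_cast (by omega)

lemma half (A T : Finset ℕ) (Y : ℕ) (R : ℕ → Prop) (h : ∀ a ∈ A, R a ∨ R (a + Y))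
    (hT : ∀ a ∈ A, R a → a ∈ T) (hT' : ∀ a ∈ A, R (a + Y) → a + Y ∈ T) : A.card ≤ 2 * T.card := by
  classical
  have h1 : A ⊆ A.filter R ∪ A.filter (fun a => R (a + Y)) := by
    intro a ha
    rw [mem_union, mem_filter, mem_filter]
    rcases h a ha with h2 | h2
    · exact Or.inl ⟨ha, h2⟩
    · exact Or.inr ⟨ha, h2⟩
  have h2 : (A.filter R).card ≤ T.card := card_le_card fun a ha => by
    rw [mem_filter] at ha
    exact hT a ha.1 ha.2
  have h3 : (A.filter (fun a => R (a + Y))).card ≤ T.card := by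
    apply card_le_card_of_injOn (fun a => a + Y)
    · intro a ha
      have ha' := mem_filter.1 (mem_coe.1 ha)
      exact mem_coe.2 (hT' a ha'.1 ha'.2)
    · intro a _ b _ hab
      exact Nat.add_right_cancel hab
  have h4 := (card_le_card h1).trans (card_union_le _ _)
  omega

lemma ev_half : ∀ᶠ X : ℝ in atTop, 2 * X ^ (49 / 50 : ℝ) ≤ X ^ (99 / 100 : ℝ) := by
  have h := (tendsto_rpow_atTop (show (0 : ℝ) < 1 / 100 by norm_num)).eventually_ge_atTop 2
  filter_upwards [h, eventually_gt_atTop (0 : ℝ)] with X h1 h2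
  calc 2 * X ^ (49 / 50 : ℝ) ≤ X ^ (1 / 100 : ℝ) * X ^ (49 / 50 : ℝ) := by gcongr
    _ = X ^ (99 / 100 : ℝ) := by
        rw [← Real.rpow_add h2]
        norm_num

lemma ev_pow (c s t : ℝ) (hc : 0 < c) (hs : 0 < s) (hs1 : s ≤ 1) (hst : s < t) :
    ∀ᶠ L : ℝ in atTop, (2 * L) ^ s ≤ c * L ^ t := by
  have h := (tendsto_rpow_atTop (show (0 : ℝ) < t - s by linarith)).eventually_ge_atTop (2 / c)
  filter_upwards [h, eventually_gt_atTop (0 : ℝ)] with L h1 h2
  rw [Real.mul_rpow (by norm_num) h2.le]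
  have h3 : (2 : ℝ) ^ s ≤ 2 := by
    have := Real.rpow_le_rpow_of_exponent_le (show (1 : ℝ) ≤ 2 by norm_num) hs1
    rwa [Real.rpow_one] at this
  have h4 : L ^ t = L ^ (t - s) * L ^ s := by
    rw [← Real.rpow_add h2]
    congr 1
    ring
  rw [h4]
  calc (2 : ℝ) ^ s * L ^ s ≤ 2 * L ^ s := by gcongr
    _ = c * (2 / c * L ^ s) := by field_simp
    _ ≤ c * (L ^ (t - s) * L ^ s) := by gcongr

lemma abs_or (u v D : ℝ) (h : v - u ≤ -(2 * D)) : D ≤ |u| ∨ D ≤ |v| := by
  rcases le_or_gt D u with h1 | h1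
  · exact Or.inl (h1.trans (le_abs_self u))
  · exact Or.inr (by
      have : D ≤ -v := by linarith
      exact this.trans (neg_le_abs v))

open Classical in
/-- comparison with `A π(x)` -/
theorem comp_pi (N : ℕ) (hN : 2 ≤ N) (hsq : Squarefree N) (A₀ : ℝ) (hA₀ : 0 < A₀) :
    ∃ η : ℝ, 0 < η ∧ ∃ X₀ : ℝ, ∀ X : ℝ, X₀ ≤ X → ∀ A : ℝ, A₀ ≤ A → ∀ n : ℤ, Fam N n →
      X ^ (49 / 50 : ℝ) ≤ (((Icc 1 ⌊4 * X⌋₊).filter (fun x : ℕ => X < x ∧
        (Real.log x) ^ η ≤ |(P n x : ℝ) - A * Nat.primeCounting x|)).card : ℝ) := by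
  obtain ⟨c, hc, hwin⟩ := win N hN hsq
  obtain ⟨η, hη0, hη1, X1, hw⟩ := hwin (A₀ / 2) (by positivity)
  have hlogtop : Tendsto Real.log atTop atTop := Real.tendsto_log_atTop
  obtain ⟨X2, h2⟩ := eventually_atTop.1 ((hlogtop.eventually (ev_pow (A₀ * c / 8) (η / 2) η (by positivity)
    (by positivity) (by linarith) (by linarith))).and (ev_half.and
    ((eventually_ge_atTop X1).and (hlogtop.eventually_ge_atTop (2 : ℝ)))))
  refine ⟨η / 2, by positivity, max X2 1, fun X hX A hA n hn => ?_⟩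
  obtain ⟨g1, g2, g3, g4⟩ := h2 X ((le_max_left _ _).trans hX)
  have hX1 : 1 ≤ X := (le_max_right _ _).trans hX
  obtain ⟨-, hB⟩ := hw X g3
  set L := Real.log X with hL
  set Y := ⌊L ^ (1 + η)⌋₊ with hY
  have hL0 : 0 < L := by linarith
  have hX0 : 0 < X := by linarith
  have hl4 : Real.log (4 * X) ≤ 2 * L := by
    rw [Real.log_mul (by norm_num) hX0.ne']
    have : Real.log 4 ≤ 2 := by
      rw [show (4 : ℝ) = 2 ^ 2 by norm_num, Real.log_pow]
      have := Real.log_two_lt_d9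
      push_cast; linarith
    linarith
  set T := (Icc 1 ⌊4 * X⌋₊).filter (fun x : ℕ => X < x ∧
        (Real.log x) ^ (η / 2) ≤ |(P n x : ℝ) - A * Nat.primeCounting x|) with hT
  set S := (Icc 1 ⌊3 * X⌋₊).filter (fun a : ℕ => X < a ∧ ((a + Y : ℕ) : ℝ) ≤ 4 * X ∧
        c * (Y / L) ≤ ((Ioc a (a + Y)).filter Nat.Prime).card ∧
        (((Ioc a (a + Y)).filter (fun p => p.Prime ∧ ¬ Gd N p)).card : ℝ) ≤
          A₀ / 2 * ((Ioc a (a + Y)).filter Nat.Prime).card) with hS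
  have hYL : L * L ^ η / 2 ≤ Y := by
    have h3 : L ^ (1 + η) < Y + 1 := Nat.lt_floor_add_one _
    have h4 : L ^ (1 + η) = L * L ^ η := by rw [Real.rpow_add hL0, Real.rpow_one]
    have h5 : 1 ≤ L ^ η := Real.one_le_rpow (by linarith) hη0.le
    rw [h4] at h3
    nlinarith
  have hYL2 : L ^ η / 2 ≤ Y / L := by
    rw [le_div_iff₀ hL0]
    linarith
  have hST : S.card ≤ 2 * T.card := by
    have hlogle : ∀ x : ℕ, X < x → (x : ℝ) ≤ 4 * X → (Real.log x) ^ (η / 2) ≤ A₀ * c / 8 * L ^ η := by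
      intro x hx1 hx2
      refine le_trans ?_ g1
      apply Real.rpow_le_rpow (Real.log_nonneg (by linarith)) _ (by positivity)
      exact (Real.log_le_log (by linarith) hx2).trans hl4
    apply half S T Y (fun x => A₀ * c / 8 * L ^ η ≤ |(P n x : ℝ) - A * Nat.primeCounting x|)
    · intro a ha
      rw [hS, mem_filter] at ha
      obtain ⟨-, k1, k2, k3, k4⟩ := ha
      apply abs_or
      have h5 := P_le N hsq n hn a Y
      have h6 : (Nat.primeCounting (a + Y) : ℝ) =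
          Nat.primeCounting a + ((Ioc a (a + Y)).filter Nat.Prime).card := by
        exact_mod_cast pi_add a Y
      rw [h6]
      set R : ℝ := (((Ioc a (a + Y)).filter Nat.Prime).card : ℝ) with hR
      have hR0 : 0 ≤ R := Nat.cast_nonneg _
      have h7 : A₀ * R ≤ A * R := mul_le_mul_of_nonneg_right hA hR0
      have h8 : A₀ / 2 * (c * (Y / L)) ≤ A₀ / 2 * R := mul_le_mul_of_nonneg_left k3 (by positivity)
      have h9 : A₀ / 2 * (c * (L ^ η / 2)) ≤ A₀ / 2 * (c * (Y / L)) := by gcongr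
      linarith
    · intro a ha hR
      rw [hS, mem_filter, mem_Icc] at ha
      obtain ⟨⟨k0, k0'⟩, k1, k2, k3, k4⟩ := ha
      have h5 : (a : ℝ) ≤ 4 * X := by
        refine le_trans ?_ k2
        exact_mod_cast Nat.le_add_right a Y
      rw [hT, mem_filter, mem_Icc]
      exact ⟨⟨k0, Nat.le_floor h5⟩, k1, (hlogle a k1 h5).trans hR⟩
    · intro a ha hR
      rw [hS, mem_filter, mem_Icc] at ha
      obtain ⟨⟨k0, k0'⟩, k1, k2, k3, k4⟩ := ha
      have h5 : X < ((a + Y : ℕ) : ℝ) := by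
        refine lt_of_lt_of_le k1 ?_
        exact_mod_cast Nat.le_add_right a Y
      rw [hT, mem_filter, mem_Icc]
      exact ⟨⟨by omega, Nat.le_floor k2⟩, h5, (hlogle _ h5 k2).trans hR⟩
  have h9 : (S.card : ℝ) ≤ 2 * T.card := by exact_mod_cast hST
  linarith

open Classical in
/-- comparison with smooth functions -/
theorem comp_G (N : ℕ) (hN : 2 ≤ N) (hsq : Squarefree N) (κ : ℝ) (hκ : 0 < κ) :
    ∃ η : ℝ, 0 < η ∧ ∃ X₀ : ℝ, ∀ X : ℝ, X₀ ≤ X → ∀ G : ℕ → ℝ,
      (∀ m : ℕ, X < m → ((m + 1 : ℕ) : ℝ) ≤ 4 * X → κ / Real.log (m + 1 : ℕ) ≤ G (m + 1) - G m) →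
      ∀ n : ℤ, Fam N n →
      X ^ (49 / 50 : ℝ) ≤ (((Icc 1 ⌊4 * X⌋₊).filter (fun x : ℕ => X < x ∧
        (Real.log x) ^ η ≤ |(P n x : ℝ) - G x|)).card : ℝ) := by
  obtain ⟨c, -, hwin⟩ := win N hN hsq
  obtain ⟨η, hη0, hη1, X1, hw⟩ := hwin (κ / 4) (by positivity)
  have hlogtop : Tendsto Real.log atTop atTop := Real.tendsto_log_atTop
  obtain ⟨X2, h2⟩ := eventually_atTop.1 ((hlogtop.eventually (ev_pow (κ / 16) (η / 2) η (by positivity)
    (by positivity) (by linarith) (by linarith))).and (ev_half.and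
    ((eventually_ge_atTop X1).and (hlogtop.eventually_ge_atTop (2 : ℝ)))))
  refine ⟨η / 2, by positivity, max X2 1, fun X hX G hG n hn => ?_⟩
  obtain ⟨g1, g2, g3, g4⟩ := h2 X ((le_max_left _ _).trans hX)
  have hX1 : 1 ≤ X := (le_max_right _ _).trans hX
  obtain ⟨hA, -⟩ := hw X g3
  set L := Real.log X with hL
  set Y := ⌊L ^ (1 + η)⌋₊ with hY
  have hL0 : 0 < L := by linarith
  have hX0 : 0 < X := by linarith
  have hl4 : Real.log (4 * X) ≤ 2 * L := by
    rw [Real.log_mul (by norm_num) hX0.ne']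
    have : Real.log 4 ≤ 2 := by
      rw [show (4 : ℝ) = 2 ^ 2 by norm_num, Real.log_pow]
      have := Real.log_two_lt_d9
      push_cast; linarith
    linarith
  have hYL : L * L ^ η / 2 ≤ Y := by
    have h3 : L ^ (1 + η) < Y + 1 := Nat.lt_floor_add_one _
    have h4 : L ^ (1 + η) = L * L ^ η := by rw [Real.rpow_add hL0, Real.rpow_one]
    have h5 : 1 ≤ L ^ η := Real.one_le_rpow (by linarith) hη0.le
    rw [h4] at h3
    nlinarith
  set T := (Icc 1 ⌊4 * X⌋₊).filter (fun x : ℕ => X < x ∧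
        (Real.log x) ^ (η / 2) ≤ |(P n x : ℝ) - G x|) with hT
  set S := (Icc 1 ⌊3 * X⌋₊).filter (fun a : ℕ => X < a ∧ ((a + Y : ℕ) : ℝ) ≤ 4 * X ∧
        (((Ioc a (a + Y)).filter (fun p => p.Prime ∧ ¬ Gd N p)).card : ℝ) ≤ κ / 4 * (Y / L)) with hS
  have hST : S.card ≤ 2 * T.card := by
    have hlogle : ∀ x : ℕ, X < x → (x : ℝ) ≤ 4 * X → (Real.log x) ^ (η / 2) ≤ κ / 16 * L ^ η := by
      intro x hx1 hx2
      refine le_trans ?_ g1
      apply Real.rpow_le_rpow (Real.log_nonneg (by linarith)) _ (by positivity)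
      exact (Real.log_le_log (by linarith) hx2).trans hl4
    apply half S T Y (fun x => κ / 16 * L ^ η ≤ |(P n x : ℝ) - G x|)
    · intro a ha
      rw [hS, mem_filter] at ha
      obtain ⟨-, k1, k2, k4⟩ := ha
      apply abs_or
      have h5 := P_le N hsq n hn a Y
      have h6 : ∀ k : ℕ, k ≤ Y → G a + k * (κ / (2 * L)) ≤ G (a + k) := by
        intro k
        induction k with
        | zero => intro _; simp
        | succ k ih =>
          intro hk
          have h7 := ih (by omega)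
          have h8 : X < ((a + k : ℕ) : ℝ) := by
            refine lt_of_lt_of_le k1 ?_
            exact_mod_cast Nat.le_add_right a k
          have h9 : ((a + k + 1 : ℕ) : ℝ) ≤ 4 * X := by
            refine le_trans ?_ k2
            exact_mod_cast (by omega : a + k + 1 ≤ a + Y)
          have h10 := hG (a + k) h8 h9
          have h11 : κ / (2 * L) ≤ κ / Real.log (a + k + 1 : ℕ) := by
            apply div_le_div_of_nonneg_left hκ.le
            · apply Real.log_pos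
              push_cast at h8 ⊢
              linarith
            · exact (Real.log_le_log (by
                push_cast at h8 ⊢
                linarith) h9).trans hl4
          have e : G (a + (k + 1)) = G (a + k + 1) := rfl
          rw [e]
          push_cast
          linarith
      have h7 := h6 Y le_rfl
      have h8 : (Y : ℝ) * (κ / (2 * L)) = κ / 2 * (Y / L) := by
        field_simp
      rw [h8] at h7
      have h9 : L ^ η / 2 ≤ Y / L := by
        rw [le_div_iff₀ hL0]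
        linarith
      have h10 : κ / 4 * (L ^ η / 2) ≤ κ / 4 * (Y / L) := mul_le_mul_of_nonneg_left h9 (by positivity)
      linarith
    · intro a ha hR
      rw [hS, mem_filter, mem_Icc] at ha
      obtain ⟨⟨k0, k0'⟩, k1, k2, k4⟩ := ha
      have h5 : (a : ℝ) ≤ 4 * X := by
        refine le_trans ?_ k2
        exact_mod_cast Nat.le_add_right a Y
      rw [hT, mem_filter, mem_Icc]
      exact ⟨⟨k0, Nat.le_floor h5⟩, k1, (hlogle a k1 h5).trans hR⟩
    · intro a ha hR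
      rw [hS, mem_filter, mem_Icc] at ha
      obtain ⟨⟨k0, k0'⟩, k1, k2, k4⟩ := ha
      have h5 : X < ((a + Y : ℕ) : ℝ) := by
        refine lt_of_lt_of_le k1 ?_
        exact_mod_cast Nat.le_add_right a Y
      rw [hT, mem_filter, mem_Icc]
      exact ⟨⟨by omega, Nat.le_floor k2⟩, h5, (hlogle _ h5 k2).trans hR⟩
  have h9 : (S.card : ℝ) ≤ 2 * T.card := by exact_mod_cast hST
  linarith

end Pool.Agent.U53.MS
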