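import Pool.Agent.U53.MS.Count

set_option autoImplicit false

/-!
# The share of the columns outside the class `1 mod N`
-/

namespace Pool.Agent.U53.MS

open Finset Filter Topology

/-- the class `1` modulo `N` -/
def Gd (N p : ℕ) : Prop := p ≡ 1 [MOD N]

instance (N : ℕ) : DecidablePred (Gd N) := fun p => inferInstanceAs (Decidable (p ≡ 1 [MOD N]))

instance (N : ℕ) : DecidablePred (fun h => ¬ Gd N h) := fun _ => inferInstance

lemma exists_bad (N h : ℕ) : h ≠ 0 → ¬ Gd N h → ∃ q, q.Prime ∧ q ∣ h ∧ ¬ Gd N q := by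
  induction h using Nat.recOnMul with
  | zero => intro h; exact absurd rfl h
  | one => intro _ h; exact absurd (Nat.ModEq.refl 1) h
  | prime p hp => intro _ h; exact ⟨p, hp, dvd_rfl, h⟩
  | mul a b iha ihb =>
    intro hab h
    by_cases ha : Gd N a
    · by_cases hb : Gd N b
      · exact absurd (by
          have := Nat.ModEq.mul ha hb
          rw [mul_one] at this
          exact this) h
      · obtain ⟨q, h1, h2, h3⟩ := ihb (right_ne_zero_of_mul hab) hb
        exact ⟨q, h1, h2.trans (dvd_mul_left _ _), h3⟩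
    · obtain ⟨q, h1, h2, h3⟩ := iha (left_ne_zero_of_mul hab) ha
      exact ⟨q, h1, h2.trans (dvd_mul_right _ _), h3⟩

/-- the columns outside the class `1 mod N` have a large or exceptional prime factor -/
lemma B_bound (N y : ℕ) (S : Finset ℕ) (ps Y : ℕ) (hyY : y ≤ Y) :
    ((FF (All (Gd N) y S ps) Y).filter (fun h => ¬ Gd N h)).card ≤
      ∑ q ∈ (Ioc y Y).filter Nat.Prime, (FF (All (Gd N) y S ps) (Y / q)).card +
        ∑ q ∈ (S ∪ {ps}).filter (fun q => q.Prime ∧ q ≤ y), (FF (All (Gd N) y S ps) (Y / q)).card := by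
  classical
  set A := All (Gd N) y S ps with hA
  set T := (Ioc y Y).filter Nat.Prime ∪ (S ∪ {ps}).filter (fun q => q.Prime ∧ q ≤ y) with hT
  have hsub : (FF A Y).filter (fun h => ¬ Gd N h) ⊆ T.biUnion (fun q => (FF A (Y / q)).image (fun m => q * m)) := by
    intro h hh
    rw [mem_filter, mem_FF] at hh
    obtain ⟨⟨⟨h1, h2⟩, h3⟩, h4⟩ := hh
    obtain ⟨q, hq, ⟨m, hm⟩, hqb⟩ := exists_bad N h (by omega) h4
    have hm1 : 1 ≤ m := by
      rcases Nat.eq_zero_or_pos m with h0 | h0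
      · rw [h0, mul_zero] at hm; omega
      · exact h0
    have hqY : q ≤ Y := by
      have : q ≤ h := by rw [hm]; exact Nat.le_mul_of_pos_right q hm1
      omega
    rw [mem_biUnion]
    refine ⟨q, ?_, ?_⟩
    · rw [hT, mem_union, mem_filter, mem_Ioc, mem_filter, mem_union, mem_singleton]
      have h5 := h3 q hq ⟨m, hm⟩
      rcases h5 with h5 | h5 | h5 | h5
      · exact absurd h5 hqb
      · exact Or.inl ⟨⟨h5, hqY⟩, hq⟩
      · rcases le_or_gt q y with h6 | h6
        · exact Or.inr ⟨Or.inl h5, hq, h6⟩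
        · exact Or.inl ⟨⟨h6, hqY⟩, hq⟩
      · rcases le_or_gt q y with h6 | h6
        · exact Or.inr ⟨Or.inr h5, hq, h6⟩
        · exact Or.inl ⟨⟨h6, hqY⟩, hq⟩
    · rw [mem_image]
      refine ⟨m, ?_, hm.symm⟩
      rw [mem_FF]
      refine ⟨⟨hm1, ?_⟩, fun p hp hpm => h3 p hp ?_⟩
      · rw [Nat.le_div_iff_mul_le hq.pos, mul_comm, ← hm]
        exact h2
      · rw [hm]; exact hpm.trans (dvd_mul_left _ _)
  refine (card_le_card hsub).trans (card_biUnion_le.trans ?_)
  have h1 : ∑ q ∈ T, ((FF A (Y / q)).image (fun m => q * m)).card ≤ ∑ q ∈ T, (FF A (Y / q)).card :=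
    sum_le_sum fun q _ => card_image_le
  refine h1.trans ?_
  have h2 := sum_union_inter (s₁ := (Ioc y Y).filter Nat.Prime)
    (s₂ := (S ∪ {ps}).filter (fun q => q.Prime ∧ q ≤ y)) (f := fun q => (FF A (Y / q)).card)
  rw [← h2]
  exact Nat.le_add_right _ _

variable {δ CG CM cθ : ℝ} {z₀ : ℕ}

/-- numeric bound for the bad columns -/
lemma B_num (N : ℕ) (H : Dens (Gd N) δ CG CM cθ z₀) : ∃ K : ℝ, 0 < K ∧ ∀ (y : ℕ), 3 ≤ y →
    ∀ (S : Finset ℕ) (ps Z : ℕ), ∑ q ∈ S, (1 : ℝ) / q ≤ 1 → (ps = 1 ∨ (ps.Prime ∧ Z < ps)) → 1 ≤ Z →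
    ∀ Y : ℕ, y ≤ Y → Y ≤ y ^ 4 →
      (((FF (All (Gd N) y S ps) Y).filter (fun h => ¬ Gd N h)).card : ℝ) ≤
        K * Y * (6 * ((1 + Real.log ((Y : ℝ) / y)) ^ δ / δ) / Real.log y +
          (1 + Real.log ((Y : ℝ) / y)) ^ (δ - 1) * (∑ q ∈ S, (1 : ℝ) / q + 1 / Z)) := by
  classical
  obtain ⟨K, hK, hU⟩ := U_div H
  refine ⟨K, hK, fun y hy S ps Z hS hps hZ Y hyY hY => ?_⟩
  have hδ1 := H.hδ1
  have hδ0 := H.hδ
  have hZ0 : (0 : ℝ) < Z := by exact_mod_cast hZ
  have hy0 : (3 : ℝ) ≤ y := by exact_mod_cast hy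
  have hY0 : (3 : ℝ) ≤ Y := by exact_mod_cast hy.trans hyY
  have hyY' : (y : ℝ) ≤ Y := by exact_mod_cast hyY
  have hly : 0 < Real.log y := Real.log_pos (by linarith)
  have hlYy : 0 ≤ Real.log ((Y : ℝ) / y) := Real.log_nonneg (by
    rw [le_div_iff₀ (by linarith), one_mul]; exact hyY')
  have h0 := B_bound N y S ps Y hyY
  have h0' : (((FF (All (Gd N) y S ps) Y).filter (fun h => ¬ Gd N h)).card : ℝ) ≤
      ∑ q ∈ (Ioc y Y).filter Nat.Prime, ((FF (All (Gd N) y S ps) (Y / q)).card : ℝ) +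
        ∑ q ∈ (S ∪ {ps}).filter (fun q => q.Prime ∧ q ≤ y), ((FF (All (Gd N) y S ps) (Y / q)).card : ℝ) := by
    exact_mod_cast h0
  refine h0'.trans ?_
  have h1 : ∑ q ∈ (Ioc y Y).filter Nat.Prime, ((FF (All (Gd N) y S ps) (Y / q)).card : ℝ) ≤
      K * (6 * (Y / Real.log y) * ((1 + Real.log ((Y : ℝ) / y)) ^ δ / δ)) := by
    refine le_trans (sum_le_sum fun q hq => ?_)
      (le_trans (le_of_eq (mul_sum _ _ _).symm) (mul_le_mul_of_nonneg_left (big_q hδ0 hδ1 y Y (by omega) hyY) hK.le))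
    rw [mem_filter, mem_Ioc] at hq
    exact hU y hy S ps hS Y q (by omega) hq.1.2 hY
  have hnn : ∀ q : ℕ, (0 : ℝ) ≤ 1 / q := fun q => by positivity
  have h2 : ∑ q ∈ (S ∪ {ps}).filter (fun q => q.Prime ∧ q ≤ y), ((FF (All (Gd N) y S ps) (Y / q)).card : ℝ) ≤
      K * Y * (1 + Real.log ((Y : ℝ) / y)) ^ (δ - 1) * (∑ q ∈ S, (1 : ℝ) / q + 1 / Z) := by
    have h3 : ∀ q ∈ (S ∪ {ps}).filter (fun q => q.Prime ∧ q ≤ y),
        ((FF (All (Gd N) y S ps) (Y / q)).card : ℝ) ≤
          K * Y * (1 + Real.log ((Y : ℝ) / y)) ^ (δ - 1) * (1 / q) := by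
      intro q hq
      rw [mem_filter] at hq
      have hq1 := hq.2.1.one_lt
      have hqy : (q : ℝ) ≤ y := by exact_mod_cast hq.2.2
      have hq0 : (0 : ℝ) < q := by exact_mod_cast (by omega : 0 < q)
      refine (hU y hy S ps hS Y q (by omega) (hq.2.2.trans hyY) hY).trans ?_
      have h4 : (1 + Real.log ((Y : ℝ) / q)) ^ (δ - 1) ≤ (1 + Real.log ((Y : ℝ) / y)) ^ (δ - 1) := by
        apply Real.rpow_le_rpow_of_nonpos (by linarith) _ (by linarith)
        have h5 : Real.log ((Y : ℝ) / y) ≤ Real.log ((Y : ℝ) / q) := by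
          apply Real.log_le_log (div_pos (by linarith) (by linarith))
          exact div_le_div_of_nonneg_left (by linarith) hq0 hqy
        linarith
      calc K * (((Y : ℝ) / q) * (1 + Real.log ((Y : ℝ) / q)) ^ (δ - 1)) ≤
          K * (((Y : ℝ) / q) * (1 + Real.log ((Y : ℝ) / y)) ^ (δ - 1)) := by gcongr
        _ = _ := by ring
    refine (sum_le_sum h3).trans ?_
    rw [← mul_sum]
    apply mul_le_mul_of_nonneg_left _ (by positivity)
    have h4 : (S ∪ {ps}).filter (fun q => q.Prime ∧ q ≤ y) ⊆ S ∪ ({ps} : Finset ℕ).filter (fun q => q.Prime) := by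
      intro q hq
      rw [mem_filter, mem_union, mem_singleton] at hq
      rw [mem_union, mem_filter, mem_singleton]
      rcases hq.1 with h | h
      · exact Or.inl h
      · exact Or.inr ⟨h, hq.2.1⟩
    refine (sum_le_sum_of_subset_of_nonneg h4 fun q _ _ => hnn q).trans ?_
    have h5 := sum_union_inter (s₁ := S) (s₂ := ({ps} : Finset ℕ).filter (fun q => q.Prime))
      (f := fun q : ℕ => (1 : ℝ) / q)
    have h6 : 0 ≤ ∑ q ∈ S ∩ ({ps} : Finset ℕ).filter (fun q => q.Prime), (1 : ℝ) / q :=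
      sum_nonneg fun q _ => hnn q
    have h7 : ∑ q ∈ ({ps} : Finset ℕ).filter (fun q => q.Prime), (1 : ℝ) / q ≤ 1 / Z := by
      rcases hps with h | ⟨h, h'⟩
      · have : ({ps} : Finset ℕ).filter (fun q => q.Prime) = ∅ := by
          rw [filter_eq_empty_iff]
          intro q hq
          rw [mem_singleton] at hq
          rw [hq, h]
          exact Nat.not_prime_one
        rw [this, sum_empty]
        positivity
      · refine (sum_le_sum_of_subset_of_nonneg (filter_subset _ _) fun q _ _ => hnn q).trans ?_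
        rw [sum_singleton]
        apply one_div_le_one_div_of_le hZ0
        exact_mod_cast h'.le
    linarith
  refine (add_le_add h1 h2).trans (le_of_eq ?_)
  ring

end Pool.Agent.U53.MS
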