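import Pool.Agent.U53.MS.Smooth

set_option autoImplicit false

/-!
# Integers prime to a product of bad primes: the share of the bad ones
-/

namespace Pool.Agent.U53.MS

open Finset Filter Topology

/-- allowed prime factors: the good primes, the primes `> y`, the primes of `S`, the prime `ps` -/
def All (G : ℕ → Prop) (y : ℕ) (S : Finset ℕ) (ps : ℕ) (p : ℕ) : Prop := G p ∨ y < p ∨ p ∈ S ∨ p = ps

/-! ### sums over large primes -/

lemma pow_sum {δ : ℝ} (hδ : 0 < δ) (hδ1 : δ ≤ 1) (k : ℕ) :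
    ∑ j ∈ range k, ((j : ℝ) + 1) ^ (δ - 1) ≤ (k : ℝ) ^ δ / δ := by
  induction k with
  | zero => simp [Real.zero_rpow hδ.ne']
  | succ k ih =>
    rw [sum_range_succ]
    have hk1 : (0 : ℝ) < (k : ℝ) + 1 := by positivity
    have h1 : ((k : ℝ) / (k + 1)) ^ δ ≤ 1 - δ / (k + 1) := by
      have h := rpow_one_add_le_one_add_mul_self (s := -(1 / ((k : ℝ) + 1))) (by
        rw [neg_le_neg_iff, div_le_one hk1]; linarith [Nat.cast_nonneg (α := ℝ) k]) hδ.le hδ1
      have e1 : 1 + -(1 / ((k : ℝ) + 1)) = (k : ℝ) / (k + 1) := by field_simp; ring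
      rw [e1] at h
      refine h.trans (le_of_eq ?_)
      ring
    have h2 : (k : ℝ) ^ δ = ((k : ℝ) / (k + 1)) ^ δ * ((k : ℝ) + 1) ^ δ := by
      rw [← Real.mul_rpow (by positivity) (by positivity), div_mul_cancel₀ _ hk1.ne']
    have h3 : ((k : ℝ) + 1) ^ (δ - 1) = ((k : ℝ) + 1) ^ δ / (k + 1) := by
      rw [Real.rpow_sub_one hk1.ne']
    have h4 : (k : ℝ) ^ δ ≤ (1 - δ / (k + 1)) * ((k : ℝ) + 1) ^ δ := by
      rw [h2]
      exact mul_le_mul_of_nonneg_right h1 (by positivity)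
    have h5 : (k : ℝ) ^ δ / δ + ((k : ℝ) + 1) ^ (δ - 1) ≤ ((k : ℝ) + 1) ^ δ / δ := by
      rw [h3]
      have h6 : (k : ℝ) ^ δ / δ ≤ (1 - δ / (k + 1)) * ((k : ℝ) + 1) ^ δ / δ := by gcongr
      have h7 : (1 - δ / (k + 1)) * ((k : ℝ) + 1) ^ δ / δ + ((k : ℝ) + 1) ^ δ / (k + 1) =
          ((k : ℝ) + 1) ^ δ / δ := by
        field_simp
        ring
      linarith
    push_cast
    linarith

/-- the sum over the primes of `(y, Y]` -/
lemma big_q {δ : ℝ} (hδ : 0 < δ) (hδ1 : δ ≤ 1) (y Y : ℕ) (hy : 2 ≤ y) (hyY : y ≤ Y) :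
    ∑ q ∈ (Ioc y Y).filter Nat.Prime, ((Y : ℝ) / q) * (1 + Real.log ((Y : ℝ) / q)) ^ (δ - 1) ≤
      6 * (Y / Real.log y) * ((1 + Real.log ((Y : ℝ) / y)) ^ δ / δ) := by
  classical
  have hy0 : (2 : ℝ) ≤ y := by exact_mod_cast hy
  have hY0 : (2 : ℝ) ≤ Y := by exact_mod_cast hy.trans hyY
  have hly : 0 < Real.log y := Real.log_pos (by linarith)
  set J := ⌊Real.log ((Y : ℝ) / y)⌋₊ with hJ
  have hlYy : 0 ≤ Real.log ((Y : ℝ) / y) := Real.log_nonneg (by
    rw [le_div_iff₀ (by linarith), one_mul]; exact_mod_cast hyY)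
  have hmaps : ∀ q ∈ (Ioc y Y).filter Nat.Prime, ⌊Real.log ((Y : ℝ) / q)⌋₊ ∈ range (J + 1) := by
    intro q hq
    rw [mem_filter, mem_Ioc] at hq
    rw [mem_range, hJ]
    apply Nat.lt_succ_of_le
    apply Nat.floor_le_floor
    have hq0 : (y : ℝ) < q := by exact_mod_cast hq.1.1
    apply Real.log_le_log (div_pos (by linarith) (by linarith))
    exact div_le_div_of_nonneg_left (by linarith) (by linarith) hq0.le
  rw [← sum_fiberwise_of_maps_to hmaps]
  have hblock : ∀ j ∈ range (J + 1), ∑ q ∈ ((Ioc y Y).filter Nat.Prime).filter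
      (fun q : ℕ => ⌊Real.log ((Y : ℝ) / q)⌋₊ = j), ((Y : ℝ) / q) * (1 + Real.log ((Y : ℝ) / q)) ^ (δ - 1) ≤
      6 * (Y / Real.log y) * ((j : ℝ) + 1) ^ (δ - 1) := by
    intro j _
    set B := ((Ioc y Y).filter Nat.Prime).filter (fun q : ℕ => ⌊Real.log ((Y : ℝ) / q)⌋₊ = j) with hB
    have hmem : ∀ q ∈ B, q.Prime ∧ (y : ℝ) < q ∧ (j : ℝ) ≤ Real.log ((Y : ℝ) / q) ∧
        Real.log ((Y : ℝ) / q) < j + 1 ∧ (0 : ℝ) < q := by
      intro q hq
      rw [hB, mem_filter, mem_filter, mem_Ioc] at hq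
      obtain ⟨⟨⟨h1, h2⟩, h3⟩, h4⟩ := hq
      have hq0 : (y : ℝ) < q := by exact_mod_cast h1
      have hqY : (q : ℝ) ≤ Y := by exact_mod_cast h2
      have h5 : 0 ≤ Real.log ((Y : ℝ) / q) := Real.log_nonneg (by
        rw [le_div_iff₀ (by linarith), one_mul]; exact hqY)
      refine ⟨h3, hq0, ?_, ?_, by linarith⟩
      · rw [← h4]; exact Nat.floor_le h5
      · rw [← h4]; exact Nat.lt_floor_add_one _
    have h1 : ∀ q ∈ B, ((Y : ℝ) / q) * (1 + Real.log ((Y : ℝ) / q)) ^ (δ - 1) ≤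
        Real.exp (j + 1) * ((j : ℝ) + 1) ^ (δ - 1) := by
      intro q hq
      obtain ⟨h2, h3, h4, h5, h6⟩ := hmem q hq
      have h7 : (Y : ℝ) / q ≤ Real.exp (j + 1) := by
        rw [← Real.log_le_iff_le_exp (by positivity)]
        exact h5.le
      have h8 : (1 + Real.log ((Y : ℝ) / q)) ^ (δ - 1) ≤ ((j : ℝ) + 1) ^ (δ - 1) :=
        Real.rpow_le_rpow_of_nonpos (by positivity) (by linarith) (by linarith)
      have h9 : 0 ≤ (1 + Real.log ((Y : ℝ) / q)) ^ (δ - 1) := by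
        apply Real.rpow_nonneg
        linarith [Nat.cast_nonneg (α := ℝ) j]
      exact mul_le_mul h7 h8 h9 (Real.exp_pos _).le
    have h2 : (B.card : ℝ) * Real.log y ≤ 2 * (Y * Real.exp (-(j : ℝ))) := by
      have h3 : (B.card : ℝ) * Real.log y ≤ ∑ q ∈ B, Real.log q := by
        rw [← nsmul_eq_mul, ← sum_const]
        exact sum_le_sum fun q hq => Real.log_le_log (by linarith) (hmem q hq).2.1.le
      have h4 : ∑ q ∈ B, Real.log q ≤ Chebyshev.theta (Y * Real.exp (-(j : ℝ))) := by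
        unfold Chebyshev.theta
        apply sum_le_sum_of_subset_of_nonneg
        · intro q hq
          obtain ⟨g2, g3, g4, g5, g6⟩ := hmem q hq
          rw [mem_filter, mem_Ioc]
          refine ⟨⟨g2.pos, Nat.le_floor ?_⟩, g2⟩
          have h5 : Real.exp j ≤ (Y : ℝ) / q := (Real.le_log_iff_exp_le (by positivity)).1 g4
          rw [Real.exp_neg, ← div_eq_mul_inv, le_div_iff₀ (Real.exp_pos _)]
          rw [le_div_iff₀ g6] at h5
          linarith
        · intro q hq _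
          rw [mem_filter] at hq
          exact Real.log_nonneg (by exact_mod_cast hq.2.one_lt.le)
      have h5 := Chebyshev.theta_le_log4_mul_x (x := Y * Real.exp (-(j : ℝ))) (by positivity)
      have h6 : Real.log 4 ≤ 2 := by
        rw [show (4 : ℝ) = 2 ^ 2 by norm_num, Real.log_pow]
        have := Real.log_two_lt_d9
        push_cast
        linarith
      have h7 : 0 ≤ Y * Real.exp (-(j : ℝ)) := by positivity
      nlinarith
    have h3 : (B.card : ℝ) ≤ 2 * (Y * Real.exp (-(j : ℝ))) / Real.log y := by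
      rw [le_div_iff₀ hly]
      exact h2
    calc ∑ q ∈ B, ((Y : ℝ) / q) * (1 + Real.log ((Y : ℝ) / q)) ^ (δ - 1)
        ≤ B.card * (Real.exp (j + 1) * ((j : ℝ) + 1) ^ (δ - 1)) := by
          rw [← nsmul_eq_mul, ← sum_const]
          exact sum_le_sum h1
      _ ≤ 2 * (Y * Real.exp (-(j : ℝ))) / Real.log y * (Real.exp (j + 1) * ((j : ℝ) + 1) ^ (δ - 1)) := by
          gcongr
      _ = 2 * Real.exp 1 * (Y / Real.log y) * ((j : ℝ) + 1) ^ (δ - 1) := by
          rw [Real.exp_add, Real.exp_neg]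
          field_simp
      _ ≤ 6 * (Y / Real.log y) * ((j : ℝ) + 1) ^ (δ - 1) := by
          have := Real.exp_one_lt_d9
          gcongr
          linarith
  refine (sum_le_sum hblock).trans ?_
  rw [← mul_sum]
  apply mul_le_mul_of_nonneg_left _ (by positivity)
  refine (pow_sum hδ hδ1 (J + 1)).trans ?_
  gcongr
  push_cast
  have := Nat.floor_le hlYy
  linarith

/-! ### the allowed integers -/

/-- the hypotheses on the good primes -/
structure Dens (G : ℕ → Prop) (δ CG CM cθ : ℝ) (z₀ : ℕ) : Prop where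
  hδ : 0 < δ
  hδ1 : δ ≤ 1
  hCG : 0 ≤ CG
  hCM : 0 ≤ CM
  hθ : 0 < cθ
  good : ∀ z : ℕ, 3 ≤ z → |∑ p ∈ PP G z, (1 : ℝ) / p - δ * Real.log (Real.log z)| ≤ CG
  all : ∀ z : ℕ, 3 ≤ z → |∑ p ∈ (Icc 1 z).filter Nat.Prime, (1 : ℝ) / p - Real.log (Real.log z)| ≤ CM
  theta : ∀ z : ℕ, z₀ ≤ z → cθ * z ≤ ∑ p ∈ PP G z, Real.log p

variable {G : ℕ → Prop} {δ CG CM cθ : ℝ} {z₀ : ℕ}

lemma allowed_sum (H : Dens G δ CG CM cθ z₀) (y : ℕ) (hy : 3 ≤ y) (S : Finset ℕ) (ps : ℕ)
    (hS : ∑ q ∈ S, (1 : ℝ) / q ≤ 1) (z : ℕ) (hz : 3 ≤ z) (hzy : z ≤ y ^ 4) :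
    ∑ p ∈ PP (All G y S ps) z, (1 : ℝ) / p ≤ δ * Real.log (Real.log z) + (CG + 2 * CM + 4) := by
  classical
  have hy0 : (3 : ℝ) ≤ y := by exact_mod_cast hy
  have hz0 : (3 : ℝ) ≤ z := by exact_mod_cast hz
  have hly : 1 ≤ Real.log y := by
    rw [Real.le_log_iff_exp_le (by linarith)]
    linarith [Real.exp_one_lt_d9]
  have hlz : 1 ≤ Real.log z := by
    rw [Real.le_log_iff_exp_le (by linarith)]
    linarith [Real.exp_one_lt_d9]
  have hbig : ∑ p ∈ (Ioc y z).filter Nat.Prime, (1 : ℝ) / p ≤ 2 * CM + 2 := by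
    rcases le_or_gt z y with h | h
    · rw [Ioc_eq_empty_of_le h]
      simp
      linarith [H.hCM]
    · have h1 := H.all z hz
      have h2 := H.all y hy
      have h3 : ∑ p ∈ (Icc 1 z).filter Nat.Prime, (1 : ℝ) / p =
          ∑ p ∈ (Icc 1 y).filter Nat.Prime, (1 : ℝ) / p + ∑ p ∈ (Ioc y z).filter Nat.Prime, (1 : ℝ) / p := by
        rw [← sum_union]
        · congr 1
          ext p
          simp only [mem_union, mem_filter, mem_Icc, mem_Ioc]
          constructor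
          · rintro ⟨⟨g1, g2⟩, g3⟩
            rcases le_or_gt p y with g4 | g4
            · exact Or.inl ⟨⟨g1, g4⟩, g3⟩
            · exact Or.inr ⟨⟨g4, g2⟩, g3⟩
          · rintro (⟨⟨g1, g2⟩, g3⟩ | ⟨⟨g1, g2⟩, g3⟩)
            · exact ⟨⟨g1, g2.trans h.le⟩, g3⟩
            · exact ⟨⟨by omega, g2⟩, g3⟩
        · rw [disjoint_left]
          intro p hp hp'
          rw [mem_filter, mem_Icc] at hp
          rw [mem_filter, mem_Ioc] at hp'
          omega
      rw [abs_le] at h1 h2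
      have h4 : Real.log (Real.log z) ≤ Real.log (Real.log y) + 2 := by
        have h5 : Real.log z ≤ 4 * Real.log y := by
          have h6 : (z : ℝ) ≤ (y : ℝ) ^ 4 := by exact_mod_cast hzy
          have h7 := Real.log_le_log (by linarith) h6
          rw [Real.log_pow] at h7
          exact_mod_cast h7
        have h6 := Real.log_le_log (by linarith) h5
        rw [Real.log_mul (by norm_num) (by linarith)] at h6
        have h7 : Real.log 4 ≤ 2 := by
          rw [show (4 : ℝ) = 2 ^ 2 by norm_num, Real.log_pow]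
          have := Real.log_two_lt_d9
          push_cast
          linarith
        linarith
      linarith [h1.2, h2.1]
  have hsub : PP (All G y S ps) z ⊆ PP G z ∪ ((Ioc y z).filter Nat.Prime ∪ (S ∪ {ps})) := by
    intro p hp
    rw [mem_PP] at hp
    obtain ⟨h1, h2, h3⟩ := hp
    rw [mem_union, mem_union, mem_union, mem_singleton, mem_filter, mem_Ioc, mem_PP]
    rcases h3 with h | h | h | h
    · exact Or.inl ⟨h1, h2, h⟩
    · exact Or.inr (Or.inl ⟨⟨h, h1⟩, h2⟩)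
    · exact Or.inr (Or.inr (Or.inl h))
    · exact Or.inr (Or.inr (Or.inr h))
  have hnn : ∀ p : ℕ, (0 : ℝ) ≤ 1 / p := fun p => by positivity
  have hun : ∀ A B : Finset ℕ, ∑ p ∈ A ∪ B, (1 : ℝ) / p ≤ ∑ p ∈ A, (1 : ℝ) / p + ∑ p ∈ B, (1 : ℝ) / p := by
    intro A B
    have h := sum_union_inter (s₁ := A) (s₂ := B) (f := fun p : ℕ => (1 : ℝ) / p)
    have h2 : 0 ≤ ∑ p ∈ A ∩ B, (1 : ℝ) / p := sum_nonneg fun p _ => hnn p
    linarith
  have h1 := sum_le_sum_of_subset_of_nonneg (f := fun p : ℕ => (1 : ℝ) / p) hsub fun p _ _ => hnn p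
  have h2 := hun (PP G z) ((Ioc y z).filter Nat.Prime ∪ (S ∪ {ps}))
  have h3 := hun ((Ioc y z).filter Nat.Prime) (S ∪ {ps})
  have h4 := hun S {ps}
  rw [sum_singleton] at h4
  have h5 : (1 : ℝ) / ps ≤ 1 := by
    rcases Nat.eq_zero_or_pos ps with h | h
    · rw [h]; simp
    · rw [div_le_one (by exact_mod_cast h)]
      exact_mod_cast h
  have h6 := (abs_le.1 (H.good z hz)).2
  linarith

/-- upper bound for the number of allowed integers -/
lemma U_bound (H : Dens G δ CG CM cθ z₀) : ∃ K : ℝ, 0 < K ∧ ∀ (y : ℕ), 3 ≤ y → ∀ (S : Finset ℕ) (ps : ℕ),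
    ∑ q ∈ S, (1 : ℝ) / q ≤ 1 → ∀ z : ℕ, 1 ≤ z → z ≤ y ^ 4 →
      ((FF (All G y S ps) z).card : ℝ) ≤ K * z * (1 + Real.log z) ^ (δ - 1) := by
  classical
  refine ⟨max 2 (14 * Real.exp (1 + (CG + 2 * CM + 4))), by positivity, fun y hy S ps hS z hz hzy => ?_⟩
  set K := max 2 (14 * Real.exp (1 + (CG + 2 * CM + 4))) with hK
  have hz0 : (1 : ℝ) ≤ z := by exact_mod_cast hz
  have hlz0 : 0 ≤ Real.log z := Real.log_nonneg hz0
  have hδ1 := H.hδ1
  have hδ0 := H.hδ
  rcases Nat.lt_or_ge z 3 with h | h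
  · have h1 : ((FF (All G y S ps) z).card : ℝ) ≤ z := by
      have : (FF (All G y S ps) z).card ≤ z := by
        unfold FF
        refine (card_filter_le _ _).trans ?_
        simp
      exact_mod_cast this
    have h2 : (1 : ℝ) / 2 ≤ (1 + Real.log z) ^ (δ - 1) := by
      have h3 : 1 + Real.log z ≤ 2 := by
        have h4 : (z : ℝ) ≤ 2 := by exact_mod_cast (by omega : z ≤ 2)
        have h5 := Real.log_le_log (by linarith) h4
        linarith [Real.log_two_lt_d9]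
      have h6 : (2 : ℝ) ^ (δ - 1) ≤ (1 + Real.log z) ^ (δ - 1) :=
        Real.rpow_le_rpow_of_nonpos (by linarith) h3 (by linarith)
      have h7 : (2 : ℝ) ^ (-1 : ℝ) ≤ (2 : ℝ) ^ (δ - 1) :=
        Real.rpow_le_rpow_of_exponent_le (by norm_num) (by linarith)
      rw [Real.rpow_neg_one] at h7
      have h8 : (1 : ℝ) / 2 = 2⁻¹ := by norm_num
      linarith
    have h3 : (2 : ℝ) ≤ K := le_max_left _ _
    have h4 : (z : ℝ) ≤ 2 * z * (1 / 2) := by linarith
    refine h1.trans (h4.trans ?_)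
    gcongr
  · have hz3 : (3 : ℝ) ≤ z := by exact_mod_cast h
    have hlz : 1 ≤ Real.log z := by
      rw [Real.le_log_iff_exp_le (by linarith)]
      linarith [Real.exp_one_lt_d9]
    have h1 := upper (All G y S ps) z hz
    have h2 := sum_FF_le_exp (All G y S ps) z
    have h3 := allowed_sum H y hy S ps hS z h hzy
    have h4 : ∑ m ∈ FF (All G y S ps) z, (1 : ℝ) / m ≤
        Real.exp (1 + (CG + 2 * CM + 4)) * (Real.log z) ^ δ := by
      refine h2.trans ?_
      rw [Real.rpow_def_of_pos (by linarith), ← Real.exp_add]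
      apply Real.exp_le_exp.2
      linarith
    have h5 : ((FF (All G y S ps) z).card : ℝ) * Real.log z ≤
        7 * z * (Real.exp (1 + (CG + 2 * CM + 4)) * (Real.log z) ^ δ) :=
      h1.trans (mul_le_mul_of_nonneg_left h4 (by positivity))
    have h6 : ((FF (All G y S ps) z).card : ℝ) ≤
        7 * Real.exp (1 + (CG + 2 * CM + 4)) * z * (Real.log z) ^ (δ - 1) := by
      rw [Real.rpow_sub_one (by linarith : Real.log z ≠ 0), ← mul_div_assoc, le_div_iff₀ (by linarith)]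
      refine h5.trans (le_of_eq ?_)
      ring
    have h7 : (Real.log z) ^ (δ - 1) ≤ 2 * (1 + Real.log z) ^ (δ - 1) := by
      have h8 : (1 + Real.log z) / 2 ≤ Real.log z := by linarith
      have h9 : (Real.log z) ^ (δ - 1) ≤ ((1 + Real.log z) / 2) ^ (δ - 1) :=
        Real.rpow_le_rpow_of_nonpos (by linarith) h8 (by linarith)
      rw [Real.div_rpow (by linarith) (by norm_num)] at h9
      have h10 : (1 : ℝ) / 2 ≤ 2 ^ (δ - 1) := by
        have h7 : (2 : ℝ) ^ (-1 : ℝ) ≤ (2 : ℝ) ^ (δ - 1) :=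
          Real.rpow_le_rpow_of_exponent_le (by norm_num) (by linarith)
        rw [Real.rpow_neg_one] at h7
        have h8 : (1 : ℝ) / 2 = 2⁻¹ := by norm_num
        linarith
      refine h9.trans ?_
      rw [div_le_iff₀ (by positivity)]
      have : 0 ≤ (1 + Real.log z) ^ (δ - 1) := by positivity
      nlinarith
    calc ((FF (All G y S ps) z).card : ℝ) ≤
        7 * Real.exp (1 + (CG + 2 * CM + 4)) * z * (Real.log z) ^ (δ - 1) := h6
      _ ≤ 7 * Real.exp (1 + (CG + 2 * CM + 4)) * z * (2 * (1 + Real.log z) ^ (δ - 1)) := by gcongr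
      _ = 14 * Real.exp (1 + (CG + 2 * CM + 4)) * z * (1 + Real.log z) ^ (δ - 1) := by ring
      _ ≤ K * z * (1 + Real.log z) ^ (δ - 1) := by
          have : 14 * Real.exp (1 + (CG + 2 * CM + 4)) ≤ K := le_max_right _ _
          gcongr

/-- the same for the integer part of a quotient -/
lemma U_div (H : Dens G δ CG CM cθ z₀) : ∃ K : ℝ, 0 < K ∧ ∀ (y : ℕ), 3 ≤ y → ∀ (S : Finset ℕ) (ps : ℕ),
    ∑ q ∈ S, (1 : ℝ) / q ≤ 1 → ∀ Y q : ℕ, 1 ≤ q → q ≤ Y → Y ≤ y ^ 4 →
      ((FF (All G y S ps) (Y / q)).card : ℝ) ≤ K * (((Y : ℝ) / q) * (1 + Real.log ((Y : ℝ) / q)) ^ (δ - 1)) := by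
  obtain ⟨K, hK, h⟩ := U_bound H
  refine ⟨2 * K, by positivity, fun y hy S ps hS Y q hq hqY hY => ?_⟩
  have hδ1 := H.hδ1
  have hδ0 := H.hδ
  have h1 : 1 ≤ Y / q := (Nat.one_le_div_iff (by omega)).2 hqY
  have h2 := h y hy S ps hS (Y / q) h1 ((Nat.div_le_self _ _).trans hY)
  have hq0 : (0 : ℝ) < q := by exact_mod_cast hq
  have hn1 : (1 : ℝ) ≤ ((Y / q : ℕ) : ℝ) := by exact_mod_cast h1
  have h3 : ((Y / q : ℕ) : ℝ) ≤ (Y : ℝ) / q := Nat.cast_div_le
  have h4 : (Y : ℝ) / q ≤ 2 * ((Y / q : ℕ) : ℝ) := by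
    rw [div_le_iff₀ hq0]
    have h5 : Y < q * (Y / q + 1) := Nat.lt_mul_div_succ Y (by omega)
    have h6 : (Y : ℝ) < q * (((Y / q : ℕ) : ℝ) + 1) := by exact_mod_cast h5
    nlinarith
  have ht1 : 1 ≤ (Y : ℝ) / q := hn1.trans h3
  have hl0 : 0 ≤ Real.log ((Y / q : ℕ) : ℝ) := Real.log_nonneg hn1
  have hlt : Real.log ((Y : ℝ) / q) ≤ 1 + Real.log ((Y / q : ℕ) : ℝ) := by
    have h5 := Real.log_le_log (by linarith) h4
    rw [Real.log_mul (by norm_num) (by linarith)] at h5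
    linarith [Real.log_two_lt_d9]
  have hlt0 : 0 ≤ Real.log ((Y : ℝ) / q) := Real.log_nonneg ht1
  have h5 : (1 + Real.log ((Y / q : ℕ) : ℝ)) ^ (δ - 1) ≤ 2 * (1 + Real.log ((Y : ℝ) / q)) ^ (δ - 1) := by
    have h8 : (1 + Real.log ((Y : ℝ) / q)) / 2 ≤ 1 + Real.log ((Y / q : ℕ) : ℝ) := by linarith
    have h9 : (1 + Real.log ((Y / q : ℕ) : ℝ)) ^ (δ - 1) ≤ ((1 + Real.log ((Y : ℝ) / q)) / 2) ^ (δ - 1) :=
      Real.rpow_le_rpow_of_nonpos (by linarith) h8 (by linarith)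
    rw [Real.div_rpow (by linarith) (by norm_num)] at h9
    have h10 : (1 : ℝ) / 2 ≤ 2 ^ (δ - 1) := by
      have h7 : (2 : ℝ) ^ (-1 : ℝ) ≤ (2 : ℝ) ^ (δ - 1) :=
        Real.rpow_le_rpow_of_exponent_le (by norm_num) (by linarith)
      rw [Real.rpow_neg_one] at h7
      have h8 : (1 : ℝ) / 2 = 2⁻¹ := by norm_num
      linarith
    refine h9.trans ?_
    rw [div_le_iff₀ (by positivity)]
    have : 0 ≤ (1 + Real.log ((Y : ℝ) / q)) ^ (δ - 1) := by positivity
    nlinarith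
  calc ((FF (All G y S ps) (Y / q)).card : ℝ)
      ≤ K * ((Y / q : ℕ) : ℝ) * (1 + Real.log ((Y / q : ℕ) : ℝ)) ^ (δ - 1) := h2
    _ ≤ K * ((Y : ℝ) / q) * (2 * (1 + Real.log ((Y : ℝ) / q)) ^ (δ - 1)) := by gcongr
    _ = _ := by ring

/-- lower bound for the number of the integers composed of good primes -/
lemma L_bound (H : Dens G δ CG CM cθ z₀) : ∃ c : ℝ, 0 < c ∧ ∃ z₁ : ℕ, ∀ z : ℕ, z₁ ≤ z →
    c * z * (Real.log z) ^ (δ - 1) ≤ (FF G z).card := by
  classical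
  have hδ1 := H.hδ1
  have hδ0 := H.hδ
  have hθ := H.hθ
  refine ⟨cθ * Real.exp (-(1 + (CG + CM))) / 8, by positivity, max ((z₀ + 3) ^ 2) 81, fun z hz => ?_⟩
  have hz81 : 81 ≤ z := (le_max_right _ _).trans hz
  have hzz : (z₀ + 3) ^ 2 ≤ z := (le_max_left _ _).trans hz
  set w := Nat.sqrt z with hw
  have hw1 : z₀ + 3 ≤ w := by
    rw [hw]
    exact Nat.le_sqrt'.2 hzz
  have hw9 : 9 ≤ w := by
    rw [hw]
    exact Nat.le_sqrt'.2 (by norm_num; exact hz81)
  have hww : w * w ≤ z := Nat.sqrt_le z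
  have hww2 : z < (w + 1) * (w + 1) := Nat.lt_succ_sqrt z
  have hw0 : (9 : ℝ) ≤ w := by exact_mod_cast hw9
  have hz0 : (81 : ℝ) ≤ z := by exact_mod_cast hz81
  have hlw : 1 ≤ Real.log w := by
    rw [Real.le_log_iff_exp_le (by linarith)]
    linarith [Real.exp_one_lt_d9]
  have hlz : 1 ≤ Real.log z := by
    rw [Real.le_log_iff_exp_le (by linarith)]
    linarith [Real.exp_one_lt_d9]
  have hlzw : Real.log z ≤ 4 * Real.log w := by
    have h1 : (z : ℝ) ≤ (w : ℝ) ^ 4 := by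
      have h2 : (z : ℝ) < ((w : ℝ) + 1) * ((w : ℝ) + 1) := by exact_mod_cast hww2
      nlinarith [sq_nonneg ((w : ℝ) ^ 2 - 2)]
    have h2 := Real.log_le_log (by linarith) h1
    rw [Real.log_pow] at h2
    exact_mod_cast h2
  have h1 := lower G z
  have h2 : cθ / 2 * z * ∑ e ∈ FF G w, (1 : ℝ) / e ≤ ∑ e ∈ FF G z, ∑ p ∈ PP G (z / e), Real.log p := by
    have h3 : ∑ e ∈ FF G w, ∑ p ∈ PP G (z / e), Real.log p ≤ ∑ e ∈ FF G z, ∑ p ∈ PP G (z / e), Real.log p := by
      apply sum_le_sum_of_subset_of_nonneg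
      · intro e he
        rw [mem_FF] at he ⊢
        exact ⟨⟨he.1.1, he.1.2.trans (by nlinarith)⟩, he.2⟩
      · intro e _ _
        exact sum_nonneg fun p hp => Real.log_nonneg (by exact_mod_cast (mem_PP.1 hp).2.1.one_lt.le)
    refine le_trans ?_ h3
    rw [mul_sum]
    refine sum_le_sum fun e he => ?_
    rw [mem_FF] at he
    have he0 : (0 : ℝ) < e := by exact_mod_cast (by omega : 0 < e)
    have h4 : w ≤ z / e := by
      rw [Nat.le_div_iff_mul_le (by omega)]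
      exact (Nat.mul_le_mul_left w he.1.2).trans hww
    have h5 := H.theta (z / e) (by omega)
    refine le_trans ?_ h5
    have h6 : (z : ℝ) / e ≤ 2 * ((z / e : ℕ) : ℝ) := by
      rw [div_le_iff₀ he0]
      have h7 : z < e * (z / e + 1) := Nat.lt_mul_div_succ z (by omega)
      have h8 : (z : ℝ) < e * (((z / e : ℕ) : ℝ) + 1) := by exact_mod_cast h7
      have h9 : (1 : ℝ) ≤ ((z / e : ℕ) : ℝ) := by exact_mod_cast (by omega : 1 ≤ z / e)
      nlinarith
    calc cθ / 2 * z * (1 / e) = cθ / 2 * ((z : ℝ) / e) := by ring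
      _ ≤ cθ / 2 * (2 * ((z / e : ℕ) : ℝ)) := by gcongr
      _ = _ := by ring
  have h3 := log_le_mul G w (by omega)
  have h4 : ∑ b ∈ FF (fun p => ¬ G p) w, (1 : ℝ) / b ≤
      Real.exp (1 + (CG + CM)) * (Real.log w) ^ (1 - δ) := by
    refine (sum_FF_le_exp _ w).trans ?_
    rw [Real.rpow_def_of_pos (by linarith), ← Real.exp_add]
    apply Real.exp_le_exp.2
    have h5 := (abs_le.1 (H.all w (by omega))).2
    have h6 := (abs_le.1 (H.good w (by omega))).1
    have h7 : ∑ p ∈ (Icc 1 w).filter Nat.Prime, (1 : ℝ) / p =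
        ∑ p ∈ PP G w, (1 : ℝ) / p + ∑ p ∈ PP (fun p => ¬ G p) w, (1 : ℝ) / p := by
      rw [← sum_union]
      · congr 1
        ext p
        rw [mem_union, mem_PP, mem_PP, mem_filter, mem_Icc]
        constructor
        · rintro ⟨⟨g1, g2⟩, g3⟩
          by_cases hg : G p
          · exact Or.inl ⟨g2, g3, hg⟩
          · exact Or.inr ⟨g2, g3, hg⟩
        · rintro (⟨g1, g2, g3⟩ | ⟨g1, g2, g3⟩)
          · exact ⟨⟨g2.one_lt.le, g1⟩, g2⟩
          · exact ⟨⟨g2.one_lt.le, g1⟩, g2⟩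
      · rw [disjoint_left]
        intro p hp hp'
        exact (mem_PP.1 hp').2.2 (mem_PP.1 hp).2.2
    rw [h7] at h5
    linarith
  set s := ∑ e ∈ FF G w, (1 : ℝ) / e with hs
  have hs0 : 0 ≤ s := sum_nonneg fun e _ => by positivity
  have h5 : Real.exp (-(1 + (CG + CM))) * (Real.log w) ^ δ ≤ s := by
    have h6 : Real.log w ≤ s * (Real.exp (1 + (CG + CM)) * (Real.log w) ^ (1 - δ)) :=
      h3.trans (mul_le_mul_of_nonneg_left h4 hs0)
    have h7 : Real.log w = (Real.log w) ^ δ * (Real.log w) ^ (1 - δ) := by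
      rw [← Real.rpow_add (by linarith)]
      simp
    have h8 : 0 < (Real.log w) ^ (1 - δ) := Real.rpow_pos_of_pos (by linarith) _
    have h9 : (Real.log w) ^ δ ≤ s * Real.exp (1 + (CG + CM)) := by
      have : (Real.log w) ^ δ * (Real.log w) ^ (1 - δ) ≤
          (s * Real.exp (1 + (CG + CM))) * (Real.log w) ^ (1 - δ) := by
        rw [← h7]
        refine h6.trans (le_of_eq (by ring))
      exact le_of_mul_le_mul_right this h8
    rw [Real.exp_neg, inv_mul_le_iff₀ (Real.exp_pos _)]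
    linarith
  have h6 : (Real.log z) ^ δ / 4 ≤ (Real.log w) ^ δ := by
    have h7 : (Real.log z) ^ δ ≤ (4 * Real.log w) ^ δ := Real.rpow_le_rpow (by linarith) hlzw hδ0.le
    rw [Real.mul_rpow (by norm_num) (by linarith)] at h7
    have h8 : (4 : ℝ) ^ δ ≤ 4 := by
      have := Real.rpow_le_rpow_of_exponent_le (show (1 : ℝ) ≤ 4 by norm_num) hδ1
      rwa [Real.rpow_one] at this
    have h9 : 0 ≤ (Real.log w) ^ δ := by positivity
    nlinarith
  have h7 : cθ / 2 * z * (Real.exp (-(1 + (CG + CM))) * ((Real.log z) ^ δ / 4)) ≤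
      ((FF G z).card : ℝ) * Real.log z := by
    refine le_trans ?_ (h2.trans h1)
    have : Real.exp (-(1 + (CG + CM))) * ((Real.log z) ^ δ / 4) ≤ s :=
      le_trans (mul_le_mul_of_nonneg_left h6 (Real.exp_pos _).le) h5
    gcongr
  rw [Real.rpow_sub_one (by linarith : Real.log z ≠ 0), ← mul_div_assoc, div_le_iff₀ (by linarith)]
  refine le_trans (le_of_eq ?_) h7
  ring

end Pool.Agent.U53.MS
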