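import Pool.Agent.U53.MS.Bad
import Pool.Agent.Y669.Mer
import Pool.Agent.Cov.PNT

set_option autoImplicit false

/-!
# The primes `≡ 1 mod N`: the density hypotheses
-/

namespace Pool.Agent.U53.MS

open Finset Filter Topology

/-- Mertens' theorem for the class `1 mod N` -/
lemma mertens_one (N : ℕ) (hN : 2 ≤ N) :
    ∃ C : ℝ, 0 ≤ C ∧ ∀ x : ℕ, 3 ≤ x →
      |∑ p ∈ (Icc 1 x).filter (fun p => p.Prime ∧ p % N = 1), (1 : ℝ) / p -
        1 / (Nat.totient N : ℝ) * Real.log (Real.log x)| ≤ C := by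
  obtain ⟨x0, hx0⟩ := Pool.Agent.H387R2.Uni.siegel
  have hlogx : Tendsto (fun x : ℕ => Real.log (x:ℝ)) atTop atTop :=
    Real.tendsto_log_atTop.comp tendsto_natCast_atTop_atTop
  obtain ⟨x1, hx1⟩ := eventually_atTop.1 (hlogx.eventually_ge_atTop (N : ℝ))
  refine Pool.Agent.Y669.mer_of (fun p : ℕ => p % N = 1) (1 / (Nat.totient N : ℝ)) 1 one_pos
    (max x0 x1) fun x hx => ?_
  have hxx0 : x0 ≤ x := (le_max_left _ _).trans hx
  have hxx1 : x1 ≤ x := (le_max_right _ _).trans hx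
  have hqx : (N : ℝ) ≤ Real.log x ^ 2 := by
    have h1 := hx1 x hxx1
    have h2 : (2 : ℝ) ≤ N := by exact_mod_cast hN
    nlinarith
  have h3 := hx0 x hxx0 N (by omega) hqx 1 (by omega) (Nat.coprime_one_left N)
  have h4 : (((Icc 1 x).filter (fun p => p.Prime ∧ p % N = 1)).card : ℝ) = H343E.piAP x N 1 := by
    unfold H343E.piAP
    congr 2
    ext p
    rw [mem_filter, mem_filter, Nat.ModEq, Nat.mod_eq_of_lt (by omega : 1 < N)]
  rw [h4, one_mul, one_div_mul_eq_div]
  exact h3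

lemma theta_one (N : ℕ) (hN : 2 ≤ N) : ∃ z₀ : ℕ, ∀ z : ℕ, z₀ ≤ z →
    1 / (4 * (N.totient : ℝ)) * z ≤ ∑ p ∈ PP (Gd N) z, Real.log p := by
  classical
  haveI : NeZero N := ⟨by omega⟩
  have h1 := Pool.Agent.Cov.PNT.pnt_residueClass (q := N) (a := 1) isUnit_one
  have hφ : (0 : ℝ) < N.totient := by exact_mod_cast Nat.totient_pos.2 (by omega)
  obtain ⟨C, hC⟩ := Chebyshev.psi_sub_theta_le_mul_sqrt
  have h2 : Tendsto (fun x : ℝ => C * (Real.sqrt x)⁻¹) atTop (𝓝 0) := by
    have := (tendsto_inv_atTop_zero.comp Real.tendsto_sqrt_atTop).const_mul C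
    simpa [Function.comp_def] using this
  have ev1 := h1.eventually (lt_mem_nhds (show (N.totient : ℝ)⁻¹ / 2 < (N.totient : ℝ)⁻¹ by
    have : (0 : ℝ) < (N.totient : ℝ)⁻¹ := by positivity
    linarith))
  have ev2 := h2.eventually (gt_mem_nhds (show (0 : ℝ) < (N.totient : ℝ)⁻¹ / 4 by positivity))
  have hev := tendsto_natCast_atTop_atTop.eventually ((ev1.and ev2).and (eventually_gt_atTop (0 : ℝ)))
  obtain ⟨z₀, hz₀⟩ := eventually_atTop.1 hev
  refine ⟨z₀, fun z hz => ?_⟩
  obtain ⟨⟨g1, g2⟩, g3⟩ := hz₀ z hz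
  rw [Nat.floor_natCast, lt_div_iff₀ g3] at g1
  have hsq : 0 < Real.sqrt (z : ℝ) := Real.sqrt_pos.2 g3
  have g4 : C * Real.sqrt (z : ℝ) ≤ (N.totient : ℝ)⁻¹ / 4 * z := by
    have hz2 : Real.sqrt (z : ℝ) * Real.sqrt (z : ℝ) = z := Real.mul_self_sqrt g3.le
    calc C * Real.sqrt (z : ℝ) = C * (Real.sqrt (z : ℝ))⁻¹ * (Real.sqrt (z : ℝ) * Real.sqrt (z : ℝ)) := by
          field_simp
      _ ≤ (N.totient : ℝ)⁻¹ / 4 * (Real.sqrt (z : ℝ) * Real.sqrt (z : ℝ)) := by gcongr
      _ = _ := by rw [hz2]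
  have g5 := hC (z : ℝ)
  have g6 : ∑ k ∈ Icc 1 z, ArithmeticFunction.vonMangoldt.residueClass (1 : ZMod N) k ≤
      ∑ p ∈ PP (Gd N) z, Real.log p + (Chebyshev.psi z - Chebyshev.theta z) := by
    have e1 : Chebyshev.psi (z : ℝ) = ∑ k ∈ Icc 1 z, ArithmeticFunction.vonMangoldt k := by
      unfold Chebyshev.psi
      rw [Nat.floor_natCast]
      rfl
    have e2 : Chebyshev.theta (z : ℝ) = ∑ k ∈ Icc 1 z, (if k.Prime then Real.log k else 0) := by
      unfold Chebyshev.theta
      rw [Nat.floor_natCast, sum_filter]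
      rfl
    have e3 : ∑ p ∈ PP (Gd N) z, Real.log p = ∑ k ∈ Icc 1 z, (if k.Prime ∧ Gd N k then Real.log k else 0) := by
      rw [← sum_filter]
      apply sum_congr _ fun _ _ => rfl
      ext k
      rw [mem_PP, mem_filter, mem_Icc]
      constructor
      · rintro ⟨i1, i2, i3⟩
        exact ⟨⟨i2.one_lt.le, i1⟩, i2, i3⟩
      · rintro ⟨⟨_, i1⟩, i2, i3⟩
        exact ⟨i1, i2, i3⟩
    rw [e1, e2, e3, ← sum_sub_distrib, ← sum_add_distrib]
    refine sum_le_sum fun k _ => ?_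
    have hΛ : 0 ≤ ArithmeticFunction.vonMangoldt k := ArithmeticFunction.vonMangoldt_nonneg
    by_cases hk : k.Prime
    · rw [if_pos hk, ArithmeticFunction.vonMangoldt_apply_prime hk]
      by_cases hg : Gd N k
      · rw [if_pos ⟨hk, hg⟩]
        have := ArithmeticFunction.vonMangoldt.residueClass_le (1 : ZMod N) k
        rw [ArithmeticFunction.vonMangoldt_apply_prime hk] at this
        linarith
      · rw [if_neg (fun h => hg h.2)]
        have : ArithmeticFunction.vonMangoldt.residueClass (1 : ZMod N) k = 0 := by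
          unfold ArithmeticFunction.vonMangoldt.residueClass
          apply Set.indicator_of_notMem
          intro h
          apply hg
          have h' : (k : ZMod N) = ((1 : ℕ) : ZMod N) := by
            rw [Nat.cast_one]; exact h
          exact (ZMod.natCast_eq_natCast_iff _ _ _).1 h'
        rw [this]
        linarith
    · rw [if_neg hk, if_neg (fun h => hk h.1)]
      have := ArithmeticFunction.vonMangoldt.residueClass_le (1 : ZMod N) k
      linarith
  have g7 : 1 / (4 * (N.totient : ℝ)) * z = (N.totient : ℝ)⁻¹ / 4 * z := by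
    field_simp
  rw [g7]
  have g8 : (N.totient : ℝ)⁻¹ / 2 * z = (N.totient : ℝ)⁻¹ / 4 * z + (N.totient : ℝ)⁻¹ / 4 * z := by ring
  linarith

/-- the density hypotheses hold for the class `1 mod N` -/
theorem dens (N : ℕ) (hN : 2 ≤ N) : ∃ (CG CM cθ : ℝ) (z₀ : ℕ),
    Dens (Gd N) (1 / (N.totient : ℝ)) CG CM cθ z₀ := by
  obtain ⟨CG, hCG, hG⟩ := mertens_one N hN
  obtain ⟨CM, hM⟩ := Pool.Agent.Helper601.Mertens.mertens_inv
  obtain ⟨z₀, hz⟩ := theta_one N hN
  have hφ : 0 < N.totient := Nat.totient_pos.2 (by omega)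
  have hφ' : (1 : ℝ) ≤ N.totient := by exact_mod_cast hφ
  refine ⟨CG, CM, 1 / (4 * (N.totient : ℝ)), z₀, ?_⟩
  exact
    { hδ := by positivity
      hδ1 := by rw [div_le_one (by linarith)]; exact hφ'
      hCG := hCG
      hCM := (abs_nonneg _).trans (hM 3 le_rfl)
      hθ := by positivity
      good := by
        intro z hz3
        have h := hG z hz3
        have e : PP (Gd N) z = (Icc 1 z).filter (fun p => p.Prime ∧ p % N = 1) := by
          ext p
          rw [mem_PP, mem_filter, mem_Icc]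
          unfold Gd Nat.ModEq
          rw [Nat.mod_eq_of_lt (by omega : 1 < N)]
          constructor
          · rintro ⟨i1, i2, i3⟩
            exact ⟨⟨i2.one_lt.le, i1⟩, i2, i3⟩
          · rintro ⟨⟨_, i1⟩, i2, i3⟩
            exact ⟨i1, i2, i3⟩
        rw [e]
        exact h
      all := hM
      theta := hz }

end Pool.Agent.U53.MS
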