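import Pool.Agent.U53.MS.Bad

set_option autoImplicit false

/-!
# Numeric form of the counts
-/

namespace Pool.Agent.U53.MS

open Finset Filter Topology

variable {δ CG CM cθ : ℝ} {z₀ : ℕ}

lemma sizes (η : ℝ) (hη : 0 < η) (hη1 : η ≤ 1) (L : ℝ) (hL : 10000000 ≤ L) (hLL : 5 / η ≤ Real.log L) :
    3 ≤ ⌊L / 1000⌋₊ ∧ ⌊L / 1000⌋₊ ≤ ⌊L ^ (1 + η)⌋₊ ∧ ⌊L ^ (1 + η)⌋₊ ≤ ⌊L / 1000⌋₊ ^ 4 ∧
      Real.log L / 2 ≤ Real.log (⌊L / 1000⌋₊ : ℝ) ∧ Real.log (⌊L / 1000⌋₊ : ℝ) ≤ Real.log L ∧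
      L - 1 ≤ (⌊L ^ (1 + η)⌋₊ : ℝ) ∧ L ^ (1 + η) / 2 ≤ (⌊L ^ (1 + η)⌋₊ : ℝ) ∧
      (⌊L ^ (1 + η)⌋₊ : ℝ) ≤ L ^ (1 + η) ∧
      Real.log (⌊L ^ (1 + η)⌋₊ : ℝ) ≤ 2 * Real.log L ∧ Real.log L ≤ 1 + Real.log (⌊L ^ (1 + η)⌋₊ : ℝ) ∧
      η * Real.log L ≤ Real.log ((⌊L ^ (1 + η)⌋₊ : ℝ) / (⌊L / 1000⌋₊ : ℝ)) ∧
      1 + Real.log ((⌊L ^ (1 + η)⌋₊ : ℝ) / (⌊L / 1000⌋₊ : ℝ)) ≤ 3 * (η * Real.log L) := by
  have hL0 : (0 : ℝ) < L := by linarith
  have hL1 : (1 : ℝ) ≤ L := by linarith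
  set y := ⌊L / 1000⌋₊ with hy
  set Y := ⌊L ^ (1 + η)⌋₊ with hY
  have hy1 : (y : ℝ) ≤ L / 1000 := Nat.floor_le (by positivity)
  have hy2 : L / 1000 < y + 1 := Nat.lt_floor_add_one _
  have hy3 : L / 2000 ≤ y := by linarith
  have hp1 : L ≤ L ^ (1 + η) := by
    have := Real.rpow_le_rpow_of_exponent_le hL1 (show (1 : ℝ) ≤ 1 + η by linarith)
    rwa [Real.rpow_one] at this
  have hp2 : L ^ (1 + η) ≤ L ^ 2 := by
    have := Real.rpow_le_rpow_of_exponent_le hL1 (show 1 + η ≤ (2 : ℝ) by linarith)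
    rwa [Real.rpow_two] at this
  have hp3 : L ^ (1 + η) = L * L ^ η := by
    rw [Real.rpow_add hL0, Real.rpow_one]
  have hη0 : 0 < L ^ η := Real.rpow_pos_of_pos hL0 _
  have hY1 : (Y : ℝ) ≤ L ^ (1 + η) := Nat.floor_le (by positivity)
  have hY2 : L ^ (1 + η) < Y + 1 := Nat.lt_floor_add_one _
  have hY3 : L - 1 ≤ Y := by linarith
  have hY4 : L ^ (1 + η) / 2 ≤ Y := by linarith
  have hy0 : (0 : ℝ) < y := by linarith
  have hY0 : (0 : ℝ) < Y := by linarith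
  have hyr : (5000 : ℝ) ≤ y := by linarith
  have hlogL : 0 < Real.log L := Real.log_pos (by linarith)
  refine ⟨?_, ?_, ?_, ?_, ?_, hY3, hY4, hY1, ?_, ?_, ?_, ?_⟩
  · exact_mod_cast (by linarith : (3 : ℝ) ≤ y)
  · exact_mod_cast (by linarith : (y : ℝ) ≤ Y)
  · have h1 : (Y : ℝ) ≤ (y : ℝ) ^ 4 := by
      have h2 : (L / 2000) ^ 4 ≤ (y : ℝ) ^ 4 := by gcongr
      have h3 : L ^ 2 ≤ (L / 2000) ^ 4 := by
        have h4 : (10000000 : ℝ) ^ 2 ≤ L ^ 2 := by gcongr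
        have h5 : (L / 2000) ^ 4 = L ^ 2 * (L ^ 2 / 2000 ^ 4) := by ring
        rw [h5]
        have h6 : (1 : ℝ) ≤ L ^ 2 / 2000 ^ 4 := by
          rw [le_div_iff₀ (by norm_num)]
          refine le_trans ?_ h4
          norm_num
        nlinarith [sq_nonneg L]
      linarith
    exact_mod_cast h1
  · have h1 : Real.sqrt L ≤ y := by
      have h2 : (2000 : ℝ) ≤ Real.sqrt L := by
        apply Real.le_sqrt_of_sq_le
        linarith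
      have h3 := Real.mul_self_sqrt hL0.le
      nlinarith
    have h2 := Real.log_le_log (Real.sqrt_pos.2 hL0) h1
    rw [Real.log_sqrt hL0.le] at h2
    exact h2
  · exact Real.log_le_log hy0 (by linarith)
  · have h1 := Real.log_le_log hY0 (hY1.trans hp2)
    rw [Real.log_pow] at h1
    exact_mod_cast h1
  · have h1 : L ≤ Real.exp 1 * Y := by
      have := Real.exp_one_gt_d9
      nlinarith
    have h2 := Real.log_le_log hL0 h1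
    rw [Real.log_mul (Real.exp_pos _).ne' hY0.ne', Real.log_exp] at h2
    exact h2
  · have h1 : L ^ η ≤ (Y : ℝ) / y := by
      rw [le_div_iff₀ hy0]
      calc L ^ η * y ≤ L ^ η * (L / 1000) := by gcongr
        _ = L ^ (1 + η) / 1000 := by rw [hp3]; ring
        _ ≤ Y := by linarith
    have h2 := Real.log_le_log hη0 h1
    rw [Real.log_rpow hL0] at h2
    exact h2
  · have h1 : (Y : ℝ) / y ≤ 2000 * L ^ η := by
      rw [div_le_iff₀ hy0]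
      calc (Y : ℝ) ≤ L ^ (1 + η) := hY1
        _ = 2000 * L ^ η * (L / 2000) := by rw [hp3]; ring
        _ ≤ 2000 * L ^ η * y := by gcongr
    have h2 := Real.log_le_log (by positivity) h1
    rw [Real.log_mul (by norm_num) hη0.ne', Real.log_rpow hL0] at h2
    have h3 : Real.log 2000 ≤ 8 := by
      rw [Real.log_le_iff_le_exp (by norm_num)]
      have h4 : (2.7 : ℝ) ^ 8 ≤ Real.exp 1 ^ 8 := by
        have := Real.exp_one_gt_d9
        gcongr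
        linarith
      rw [← Real.exp_nat_mul] at h4
      norm_num at h4 ⊢
      linarith
    have h4 : 5 ≤ η * Real.log L := by
      rw [div_le_iff₀ hη] at hLL
      linarith
    linarith

/-- the counts in terms of `L = log X` -/
lemma main_num (N : ℕ) (H : Dens (Gd N) δ CG CM cθ z₀) : ∃ K c : ℝ, 0 < K ∧ 0 < c ∧ ∀ ε : ℝ, 0 < ε →
    ∃ η : ℝ, 0 < η ∧ η ≤ 1 ∧ ∃ Z0 : ℕ, ∀ᶠ L : ℝ in atTop, ∀ (S : Finset ℕ) (ps Z : ℕ), Z0 ≤ Z →
      ∑ q ∈ S, (1 : ℝ) / q ≤ 6 / (Real.log L) ^ 2 → (ps = 1 ∨ (ps.Prime ∧ Z < ps)) →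
      (((FF (All (Gd N) ⌊L / 1000⌋₊ S ps) ⌊L ^ (1 + η)⌋₊).filter (fun h => ¬ Gd N h)).card : ℝ) ≤
        ε * ((FF (All (Gd N) ⌊L / 1000⌋₊ S ps) ⌊L ^ (1 + η)⌋₊).card : ℝ) ∧
      L ^ (1 + η / 2) ≤ ((FF (All (Gd N) ⌊L / 1000⌋₊ S ps) ⌊L ^ (1 + η)⌋₊).card : ℝ) ∧
      ((FF (All (Gd N) ⌊L / 1000⌋₊ S ps) ⌊L ^ (1 + η)⌋₊).card : ℝ) ≤
        K * ⌊L ^ (1 + η)⌋₊ * (Real.log L) ^ (δ - 1) ∧
      c * ⌊L ^ (1 + η)⌋₊ * (Real.log L) ^ (δ - 1) ≤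
        ((FF (All (Gd N) ⌊L / 1000⌋₊ S ps) ⌊L ^ (1 + η)⌋₊).card : ℝ) := by
  classical
  obtain ⟨K1, hK1, hB⟩ := B_num N H
  obtain ⟨K2, hK2, hU⟩ := U_bound H
  obtain ⟨c, hc, z₁, hL⟩ := L_bound H
  have hδ0 := H.hδ
  have hδ1 := H.hδ1
  refine ⟨K2, c / 2, hK2, by positivity, fun ε hε => ?_⟩
  set τ := ε * c * δ / (144 * K1) with hτ
  have hτ0 : 0 < τ := by positivity
  set η := min 1 (τ ^ (1 / δ)) with hη
  have hη0 : 0 < η := lt_min one_pos (Real.rpow_pos_of_pos hτ0 _)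
  have hη1 : η ≤ 1 := min_le_left _ _
  have hηδ : η ^ δ ≤ τ := by
    calc η ^ δ ≤ (τ ^ (1 / δ)) ^ δ := Real.rpow_le_rpow hη0.le (min_le_right _ _) hδ0.le
      _ = τ := by rw [← Real.rpow_mul hτ0.le, one_div_mul_cancel hδ0.ne', Real.rpow_one]
  have hηδ1 : 0 < η ^ (δ - 1) := Real.rpow_pos_of_pos hη0 _
  set ρ := ε * c / (8 * K1 * η ^ (δ - 1)) with hρ
  have hρ0 : 0 < ρ := by positivity
  obtain ⟨Z0, hZ0⟩ := exists_nat_gt (1 / ρ)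
  refine ⟨η, hη0, hη1, max 1 Z0, ?_⟩
  have e5 : ∀ᶠ L : ℝ in atTop, 4 / c * Real.log L ≤ L ^ (η / 2) := by
    have h := (isLittleO_log_rpow_atTop (show 0 < η / 2 by positivity)).bound
      (show (0 : ℝ) < c / 4 by positivity)
    filter_upwards [h, eventually_ge_atTop (1 : ℝ)] with L h1 h2
    rw [Real.norm_of_nonneg (Real.log_nonneg h2), Real.norm_of_nonneg (by positivity)] at h1
    calc 4 / c * Real.log L ≤ 4 / c * (c / 4 * L ^ (η / 2)) := by gcongr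
      _ = L ^ (η / 2) := by field_simp
  filter_upwards [e5, eventually_ge_atTop (10000000 : ℝ), eventually_ge_atTop ((z₁ : ℝ) + 1),
    Real.tendsto_log_atTop.eventually_ge_atTop (5 / η), Real.tendsto_log_atTop.eventually_ge_atTop (6 / ρ),
    Real.tendsto_log_atTop.eventually_ge_atTop (6 : ℝ)] with L h5 h1 h2 h3 h4 h6 S ps Z hZ hS hps
  obtain ⟨g1, g2, g3, g4, g5, g6, g7, g8, g9, g10, g11, g12⟩ := sizes η hη0 hη1 L h1 h3
  set y := ⌊L / 1000⌋₊ with hy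
  set Y := ⌊L ^ (1 + η)⌋₊ with hY
  set A := All (Gd N) y S ps with hA
  set ℓ := Real.log L with hℓ
  have hL0 : (0 : ℝ) < L := by linarith
  have hℓ0 : 0 < ℓ := by linarith
  have hℓδ : 0 < ℓ ^ (δ - 1) := Real.rpow_pos_of_pos hℓ0 _
  have hYr : (0 : ℝ) < Y := by linarith
  have hsm : 6 / ℓ ^ 2 ≤ ρ := by
    rw [div_le_iff₀ (by positivity)]
    rw [div_le_iff₀ hρ0] at h4
    nlinarith
  have hS1 : ∑ q ∈ S, (1 : ℝ) / q ≤ 1 := by
    refine hS.trans ?_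
    rw [div_le_one (by positivity)]
    nlinarith
  have hZ1 : 1 ≤ Z := (le_max_left _ _).trans hZ
  have hZρ : (1 : ℝ) / Z ≤ ρ := by
    have h7 : (Z0 : ℝ) ≤ Z := by exact_mod_cast (le_max_right _ _).trans hZ
    have h8 : 1 / ρ < Z := lt_of_lt_of_le hZ0 h7
    rw [div_lt_iff₀ hρ0] at h8
    rw [div_le_iff₀ (by exact_mod_cast hZ1)]
    linarith
  -- the lower bound
  have hV0 : c / 2 * Y * ℓ ^ (δ - 1) ≤ ((FF A Y).card : ℝ) := by
    have h7 : ((FF (Gd N) Y).card : ℝ) ≤ (FF A Y).card := by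
      have : FF (Gd N) Y ⊆ FF A Y := by
        intro m hm
        rw [mem_FF] at hm ⊢
        exact ⟨hm.1, fun p hp hd => Or.inl (hm.2 p hp hd)⟩
      exact_mod_cast card_le_card this
    have h8 := hL Y (by
      have : (z₁ : ℝ) ≤ Y := by linarith
      exact_mod_cast this)
    have hlY : 0 < Real.log (Y : ℝ) := by linarith
    have h9 : (2 * ℓ) ^ (δ - 1) ≤ (Real.log (Y : ℝ)) ^ (δ - 1) :=
      Real.rpow_le_rpow_of_nonpos hlY g9 (by linarith)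
    rw [Real.mul_rpow (by norm_num) hℓ0.le] at h9
    have h10 : (1 : ℝ) / 2 ≤ 2 ^ (δ - 1) := by
      have h7 : (2 : ℝ) ^ (-1 : ℝ) ≤ (2 : ℝ) ^ (δ - 1) :=
        Real.rpow_le_rpow_of_exponent_le (by norm_num) (by linarith)
      rw [Real.rpow_neg_one] at h7
      have h8 : (1 : ℝ) / 2 = 2⁻¹ := by norm_num
      linarith
    calc c / 2 * Y * ℓ ^ (δ - 1) = c * Y * (1 / 2 * ℓ ^ (δ - 1)) := by ring
      _ ≤ c * Y * (2 ^ (δ - 1) * ℓ ^ (δ - 1)) := by gcongr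
      _ ≤ c * Y * (Real.log (Y : ℝ)) ^ (δ - 1) := by gcongr
      _ ≤ _ := h8.trans h7
  refine ⟨?_, ?_, ?_, hV0⟩
  · have hb := hB y g1 S ps Z hS1 hps hZ1 Y g2 g3
    refine hb.trans ?_
    set t := Real.log ((Y : ℝ) / y) with ht
    have ht0 : 0 < η * ℓ := by positivity
    have i1 : (1 + t) ^ δ ≤ 3 * (τ * ℓ ^ δ) := by
      calc (1 + t) ^ δ ≤ (3 * (η * ℓ)) ^ δ := Real.rpow_le_rpow (by linarith) g12 hδ0.le
        _ = 3 ^ δ * (η ^ δ * ℓ ^ δ) := by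
            rw [Real.mul_rpow (by norm_num) ht0.le, Real.mul_rpow hη0.le hℓ0.le]
        _ ≤ 3 * (τ * ℓ ^ δ) := by
            have : (3 : ℝ) ^ δ ≤ 3 := by
              have := Real.rpow_le_rpow_of_exponent_le (show (1 : ℝ) ≤ 3 by norm_num) hδ1
              rwa [Real.rpow_one] at this
            gcongr
    have i2 : (1 + t) ^ (δ - 1) ≤ η ^ (δ - 1) * ℓ ^ (δ - 1) := by
      rw [← Real.mul_rpow hη0.le hℓ0.le]
      exact Real.rpow_le_rpow_of_nonpos ht0 (by linarith) (by linarith)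
    have i3 : 6 * ((1 + t) ^ δ / δ) / Real.log y ≤ 36 * τ / δ * ℓ ^ (δ - 1) := by
      have i4 : 0 < Real.log (y : ℝ) := by linarith
      rw [div_le_iff₀ i4]
      calc 6 * ((1 + t) ^ δ / δ) ≤ 6 * (3 * (τ * ℓ ^ δ) / δ) := by gcongr
        _ = 36 * τ / δ * ℓ ^ (δ - 1) * (ℓ / 2) := by
            rw [Real.rpow_sub_one hℓ0.ne']
            field_simp
            ring
        _ ≤ 36 * τ / δ * ℓ ^ (δ - 1) * Real.log y := by gcongr
    have i5 : (1 + t) ^ (δ - 1) * (∑ q ∈ S, (1 : ℝ) / q + 1 / Z) ≤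
        (η ^ (δ - 1) * ℓ ^ (δ - 1)) * (2 * ρ) := by
      apply mul_le_mul i2 (by linarith) _ (by positivity)
      have : 0 ≤ ∑ q ∈ S, (1 : ℝ) / q := sum_nonneg fun q _ => by positivity
      positivity
    calc K1 * Y * (6 * ((1 + t) ^ δ / δ) / Real.log y + (1 + t) ^ (δ - 1) * (∑ q ∈ S, (1 : ℝ) / q + 1 / Z))
        ≤ K1 * Y * (36 * τ / δ * ℓ ^ (δ - 1) + (η ^ (δ - 1) * ℓ ^ (δ - 1)) * (2 * ρ)) := by gcongr
      _ = ε * (c / 2 * Y * ℓ ^ (δ - 1)) := by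
          rw [hτ, hρ]
          field_simp
          ring
      _ ≤ ε * ((FF A Y).card : ℝ) := by gcongr
  · refine le_trans ?_ hV0
    have j1 : ℓ⁻¹ ≤ ℓ ^ (δ - 1) := by
      rw [← Real.rpow_neg_one]
      exact Real.rpow_le_rpow_of_exponent_le (by linarith) (by linarith)
    have j2 : L ^ (1 + η) = L ^ (1 + η / 2) * L ^ (η / 2) := by
      rw [← Real.rpow_add hL0]
      congr 1
      ring
    have j3 : 1 ≤ c / 4 * (L ^ (η / 2) * ℓ⁻¹) := by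
      rw [← div_eq_mul_inv, mul_div_assoc', le_div_iff₀ hℓ0, one_mul]
      calc ℓ = c / 4 * (4 / c * ℓ) := by field_simp
        _ ≤ c / 4 * L ^ (η / 2) := by gcongr
    calc L ^ (1 + η / 2) = L ^ (1 + η / 2) * 1 := by ring
      _ ≤ L ^ (1 + η / 2) * (c / 4 * (L ^ (η / 2) * ℓ⁻¹)) := by gcongr
      _ = c / 2 * (L ^ (1 + η) / 2) * ℓ⁻¹ := by rw [j2]; ring
      _ ≤ c / 2 * Y * ℓ ^ (δ - 1) := by gcongr
  · refine (hU y g1 S ps hS1 Y (by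
      have : (1 : ℝ) ≤ Y := by linarith
      exact_mod_cast this) g3).trans ?_
    have k1 : (1 + Real.log (Y : ℝ)) ^ (δ - 1) ≤ ℓ ^ (δ - 1) :=
      Real.rpow_le_rpow_of_nonpos hℓ0 g10 (by linarith)
    gcongr

end Pool.Agent.U53.MS
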