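import Pool.Agent.N610.MS.ROWS

set_option autoImplicit false

/-!
# Rows of the Maier matrix for every submodulus and every set of columns

After `Pool.Agent.H510R2.Maier.matrix_sum`, `rows_sums` and `Pool.Agent.N610.MS.t_ROWS` of the starting library:
the same for an arbitrary set `Q` of columns.
-/

namespace Pool.Agent.U53.MS

open Finset Filter Topology
open Pool.Agent.H378R2
open Pool.Agent.H510R2.Maier

/-- `∑ log p` over the primes `p = n + h`, `h ≤ Y`, `h ∈ Q` -/
noncomputable def tq (Q : ℕ → Prop) [DecidablePred Q] (n Y : ℕ) : ℝ := ∑ h ∈ (Icc 1 Y).filter Q, th (n + h)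

/-- number of the `h ≤ Y`, `h ∈ Q`, prime to `W` -/
def vq (Q : ℕ → Prop) [DecidablePred Q] (W Y : ℕ) : ℕ := (((Icc 1 Y).filter Q).filter (fun h => h.Coprime W)).card

theorem tq_nonneg (Q : ℕ → Prop) [DecidablePred Q] (n Y : ℕ) : 0 ≤ tq Q n Y :=
  Finset.sum_nonneg fun _ _ => th_nonneg _

theorem matrix_set (X : ℝ) (hX : 4 ≤ X) (W Y : ℕ) (hY : (Y : ℝ) ≤ X / 2)
    (hW : ∀ p : ℕ, p.Prime → p ∣ W → (p : ℝ) ≤ X) (E : ℝ)
    (hE : ∀ b : ℕ, b.Coprime W → |EPhi X W b| ≤ E) (Q : ℕ → Prop) [DecidablePred Q] :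
    |∑ n ∈ Icc 1 ⌊3 * X⌋₊, nu X W 0 n * tq Q n Y - vq Q W Y * (LPhi X * (1 / (Nat.totient W : ℝ)))| ≤
      Y * (E + (4 * Y * Real.log (4 * X) + 4 * Real.sqrt X * Real.log (4 * X))) := by
  classical
  set N := ⌊3 * X⌋₊ with hN
  have hX0 : 0 < X := by linarith
  have hl : 0 ≤ Real.log (4 * X) := Real.log_nonneg (by linarith)
  have h1 : ∑ n ∈ Icc 1 N, nu X W 0 n * tq Q n Y =
      ∑ h ∈ (Icc 1 Y).filter Q, ∑ n ∈ Icc 1 N, nu X W 0 n * th (n + h) := by
    unfold tq
    simp_rw [Finset.mul_sum]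
    exact Finset.sum_comm
  have h2 : (vq Q W Y : ℝ) * (LPhi X * (1 / (Nat.totient W : ℝ))) =
      ∑ h ∈ (Icc 1 Y).filter Q, if h.Coprime W then LPhi X * (1 / (Nat.totient W : ℝ)) else 0 := by
    unfold vq
    rw [← Finset.sum_filter, Finset.sum_const, nsmul_eq_mul]
  rw [h1, h2, ← Finset.sum_sub_distrib]
  refine (Finset.abs_sum_le_sum_abs _ _).trans ?_
  have hE0 : 0 ≤ E := (abs_nonneg _).trans (hE 1 (Nat.coprime_one_left W))
  have h3 : ∀ h ∈ (Icc 1 Y).filter Q, |∑ n ∈ Icc 1 N, nu X W 0 n * th (n + h) -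
      (if h.Coprime W then LPhi X * (1 / (Nat.totient W : ℝ)) else 0)| ≤
      E + (4 * Y * Real.log (4 * X) + 4 * Real.sqrt X * Real.log (4 * X)) := by
    intro h hh
    rw [Finset.mem_filter, Finset.mem_Icc] at hh
    have hhY : (h : ℝ) ≤ Y := by exact_mod_cast hh.1.2
    have hsq : 0 ≤ 4 * Real.sqrt X * Real.log (4 * X) := by positivity
    by_cases hc : h.Coprime W
    · rw [if_pos hc]
      have a1 := shift_bound X hX W 0 h (by linarith) (fun _ => (1 : ℝ)) 1 (fun _ => by simp)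
      simp only [mul_one, one_mul, zero_add] at a1
      have a2 := hE h hc
      rw [EPhi_eq] at a2
      have a3 : |∑ n ∈ Icc 1 N, nu X W 0 n * th (n + h) - LPhi X * (1 / (Nat.totient W : ℝ))| ≤
          ((4 * h) * Real.log (4 * X) + 4 * Real.sqrt X * Real.log (4 * X)) + E := by
        have a4 : ∑ n ∈ (Icc 1 N).filter (fun n => n ≡ h [MOD W]),
            Phi (n / X) * ArithmeticFunction.vonMangoldt n =
            ∑ n ∈ Icc 1 N, (if n ≡ h [MOD W] then Phi (n / X) * ArithmeticFunction.vonMangoldt n else 0) := by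
          rw [Finset.sum_filter]
        rw [a4] at a2
        rw [abs_le] at a1 a2 ⊢
        constructor
        · linarith [a1.1, a2.1]
        · linarith [a1.2, a2.2]
      refine a3.trans ?_
      have : (4 * h) * Real.log (4 * X) ≤ 4 * Y * Real.log (4 * X) :=
        mul_le_mul_of_nonneg_right (by linarith) hl
      linarith
    · rw [if_neg hc, sub_zero]
      have hz : ∑ n ∈ Icc 1 N, nu X W 0 n * th (n + h) = 0 := by
        apply Finset.sum_eq_zero
        intro n hn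
        unfold nu
        split_ifs with hmod
        · rcases le_or_gt (n : ℝ) X with hnX | hnX
          · rw [Phi_eq_zero_of_le (by positivity) (by rw [div_le_one hX0]; exact hnX), zero_mul]
          · unfold th
            split_ifs with hp
            · exfalso
              obtain ⟨p, hpp, hp1, hp2⟩ := Nat.Prime.not_coprime_iff_dvd.1 hc
              have hmod2 : n + h ≡ 0 + h [MOD W] := Nat.ModEq.add_right _ hmod
              have hmod3 : n + h ≡ 0 + h [MOD p] := hmod2.of_dvd hp2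
              have hdvd : p ∣ n + h := (Nat.ModEq.dvd_iff hmod3 dvd_rfl).2 (by rwa [zero_add])
              have heq : p = n + h := (Nat.prime_dvd_prime_iff_eq hpp hp).1 hdvd
              have := hW p hpp hp2
              rw [heq] at this
              push_cast at this
              have : (0 : ℝ) ≤ h := by positivity
              linarith
            · rw [mul_zero]
        · rw [zero_mul]
      rw [hz, abs_zero]
      positivity
  refine (Finset.sum_le_sum h3).trans ?_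
  rw [Finset.sum_const, nsmul_eq_mul]
  have h4 : (((Icc 1 Y).filter Q).card : ℝ) ≤ Y := by
    have := Finset.card_filter_le (Icc 1 Y) Q
    rw [Nat.card_Icc] at this
    exact_mod_cast (by omega : ((Icc 1 Y).filter Q).card ≤ Y)
  exact mul_le_mul_of_nonneg_right h4 (by positivity)

set_option maxHeartbeats 4000000 in
/-- weighted sums over the rows, for every set of primes of the big modulus and every set of columns -/
theorem rows_gen (ε : ℝ) (hε : 0 < ε) (hε1 : ε ≤ 1) (Z : ℕ) : ∃ X0 : ℝ, ∀ X : ℝ, X0 ≤ X →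
    ∃ (ps : ℕ) (S : Finset ℕ), GoodP Z ps ∧ GoodS X S ∧
      ∀ P : Finset ℕ, P ⊆ PW X S ps → ∀ Y : ℕ, (Y : ℝ) ≤ (Real.log X) ^ 3 →
      0 < MPhi X ∧
      (∀ (Q : ℕ → Prop) [DecidablePred Q],
        (1 - ε / 4) * ((vq Q (∏ p ∈ P, p) Y : ℝ) * (MPhi X / (∏ p ∈ P, p).totient)) -
            40 * (MPhi X / (∏ p ∈ P, p).totient) ≤
          ∑ n ∈ Icc 1 ⌊3 * X⌋₊, nu X (∏ p ∈ P, p) 0 n * tq Q n Y ∧
        ∑ n ∈ Icc 1 ⌊3 * X⌋₊, nu X (∏ p ∈ P, p) 0 n * tq Q n Y ≤
          (1 + ε / 4) * ((vq Q (∏ p ∈ P, p) Y : ℝ) * (MPhi X / (∏ p ∈ P, p).totient)) +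
            40 * (MPhi X / (∏ p ∈ P, p).totient)) ∧
        (1 - ε / 4) * (MPhi X / (∏ p ∈ P, p : ℕ)) ≤ ∑ n ∈ Icc 1 ⌊3 * X⌋₊, nu X (∏ p ∈ P, p) 0 n ∧
        ∑ n ∈ Icc 1 ⌊3 * X⌋₊, nu X (∏ p ∈ P, p) 0 n ≤ (1 + ε / 4) * (MPhi X / (∏ p ∈ P, p : ℕ)) := by
  obtain ⟨X1, hX1⟩ := bvrel_holds 3 Z
  have hlogtop : Tendsto Real.log atTop atTop := Real.tendsto_log_atTop
  have ev1 := lphi_mphi (ε / 80) (by positivity)
  have ev2 : ∀ᶠ X : ℝ in atTop, (Real.log X) ^ 3 * (4 * (Real.log X) ^ 3 * (2 * Real.log X) +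
      8 * Real.exp (Real.log X / 2) * (2 * Real.log X)) * Real.exp (Real.log X / 700) ≤ Real.exp (Real.log X) :=
    hlogtop.eventually ev_small2
  have ev3 : ∀ᶠ X : ℝ in atTop, (Real.log X) ^ 3 ≤ X / 2 := by
    have h1 := (Real.isLittleO_pow_log_id_atTop (n := 3)).bound (show (0 : ℝ) < 1 / 2 by norm_num)
    filter_upwards [h1, eventually_ge_atTop (1 : ℝ)] with X h2 h3
    rw [Real.norm_of_nonneg (pow_nonneg (Real.log_nonneg h3) 3), id, Real.norm_of_nonneg (by linarith)] at h2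
    linarith
  have hev := ((((ev1.and ev2).and ev3).and (Pool.Agent.N610.MS.ROWS.ev_M (400 / ε) (by positivity))).and
    (eventually_ge_atTop X1)).and
    ((eventually_ge_atTop (40 : ℝ)).and (hlogtop.eventually_ge_atTop (2 : ℝ)))
  obtain ⟨X0, hX0⟩ := eventually_atTop.1 hev
  refine ⟨X0, fun X hX => ?_⟩
  obtain ⟨⟨⟨⟨⟨h1, h2⟩, h3⟩, h4⟩, h5⟩, h6, h7⟩ := hX0 X hX
  obtain ⟨ps, S, hps, hS, hbv⟩ := hX1 X h5
  refine ⟨ps, S, hps, hS, fun P hP Y hY => ?_⟩
  have hXpos : 0 < X := by linarith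
  obtain ⟨W2, hW2, hco, hWprod, hWDle⟩ := Pool.Agent.N610.MS.ROWS.sub_decomp hP
  have hPp : ∀ p ∈ P, p.Prime := fun p hp => (mem_PW.1 (hP hp)).2.1
  have hW0 : 0 < ∏ p ∈ P, p := Finset.prod_pos fun p hp => (hPp p hp).pos
  set W := ∏ p ∈ P, p with hW
  have hWr : (0 : ℝ) < W := by exact_mod_cast hW0
  have hφ0 : (0 : ℝ) < W.totient := by exact_mod_cast Nat.totient_pos.2 hW0
  have hφ2 : (0 : ℝ) < W2.totient := by exact_mod_cast Nat.totient_pos.2 hW2
  have hφle : (W.totient : ℝ) ≤ W := by exact_mod_cast Nat.totient_le W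
  have hWle : (W : ℝ) ≤ Real.exp (Real.log X / 700) := hWDle.trans (WW_le X (by linarith) S ps)
  set L := Real.log X with hL
  have hexpL : Real.exp L = X := Real.exp_log hXpos
  have hsqrt : Real.sqrt X = Real.exp (L / 2) := by
    rw [← hexpL, Real.sqrt_eq_iff_mul_self_eq (Real.exp_pos _).le (Real.exp_pos _).le, ← Real.exp_add]
    congr 1; ring
  have hl4 : Real.log (4 * X) ≤ 2 * L := by
    rw [Real.log_mul (by norm_num) hXpos.ne']
    have : Real.log 4 ≤ 2 := by
      rw [show (4 : ℝ) = 2 ^ 2 by norm_num, Real.log_pow]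
      have := Real.log_two_lt_d9
      push_cast; linarith
    linarith
  have hl40 : 0 ≤ Real.log (4 * X) := Real.log_nonneg (by linarith)
  set E0 := X / (((WW X S ps).totient : ℝ) * L ^ 3) with hE0
  have hEb0 := single_bound X (WW X S ps) ps 3 (by linarith) E0 hbv
  have hWp0 : ∀ p : ℕ, p.Prime → p ∣ WW X S ps → (p : ℝ) ≤ X := by
    intro p hp hpW
    have h8 := (mem_PW.1 ((prime_dvd_WW hp).1 hpW)).1
    have h9 : (p : ℝ) ≤ yy X := by exact_mod_cast h8
    have h10 : (yy X : ℝ) ≤ L / 1000 := Nat.floor_le (by positivity)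
    have h11 : L ≤ X := by
      have := Real.add_one_le_exp L
      linarith
    linarith
  have hWp : ∀ p : ℕ, p.Prime → p ∣ W → (p : ℝ) ≤ X := fun p hp hd =>
    hWp0 p hp (hd.trans ⟨W2, hWprod.symm⟩)
  have hWp2 : ∀ p : ℕ, p.Prime → p ∣ W2 → (p : ℝ) ≤ X := fun p hp hd =>
    hWp0 p hp (hd.trans ⟨W, by rw [← hWprod]; ring⟩)
  set E := (W2.totient : ℝ) * E0 + 2 * Real.sqrt (3 * X) * Real.log (3 * X) with hE
  have hEb : ∀ b : ℕ, b.Coprime W → |EPhi X W b| ≤ E := by
    intro b hb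
    apply EPhi_sub X (by linarith) W W2 hW0 hW2 hco hWp2 E0 _ b hb
    rw [hWprod]
    exact hEb0
  have hE0eq : (W2.totient : ℝ) * E0 = X / (W.totient * L ^ 3) := by
    rw [hE0, ← hWprod, Nat.totient_mul hco]
    push_cast
    field_simp
  have hM1 := MPhi_ge X h6
  set M := MPhi X with hM
  have hM0 : 0 < M := by linarith
  -- the error
  have h3X : 2 * Real.sqrt (3 * X) * Real.log (3 * X) ≤ 4 * Real.sqrt X * Real.log (4 * X) := by
    have a1 : Real.sqrt (3 * X) ≤ 2 * Real.sqrt X := by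
      rw [show 2 * Real.sqrt X = Real.sqrt (4 * X) by
        rw [Real.sqrt_mul (by norm_num), show (4 : ℝ) = 2 ^ 2 by norm_num, Real.sqrt_sq (by norm_num)]]
      exact Real.sqrt_le_sqrt (by linarith)
    have a2 : Real.log (3 * X) ≤ Real.log (4 * X) := Real.log_le_log (by linarith) (by linarith)
    have a3 : 0 ≤ Real.log (3 * X) := Real.log_nonneg (by linarith)
    calc 2 * Real.sqrt (3 * X) * Real.log (3 * X) ≤ 2 * (2 * Real.sqrt X) * Real.log (4 * X) := by gcongr
      _ = _ := by ring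
  have herr : Y * (E + (4 * Y * Real.log (4 * X) + 4 * Real.sqrt X * Real.log (4 * X))) ≤ 40 * (M / W.totient) := by
    have hY0 : (0 : ℝ) ≤ Y := Nat.cast_nonneg _
    have b1 : Y * ((W2.totient : ℝ) * E0) ≤ X / W.totient := by
      rw [hE0eq]
      calc Y * (X / (W.totient * L ^ 3)) ≤ L ^ 3 * (X / (W.totient * L ^ 3)) := by gcongr
        _ = X / W.totient := by field_simp
    have b2 : Y * (4 * Y * Real.log (4 * X) + 8 * Real.sqrt X * Real.log (4 * X)) ≤ X / W.totient := by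
      rw [le_div_iff₀ hφ0]
      calc Y * (4 * Y * Real.log (4 * X) + 8 * Real.sqrt X * Real.log (4 * X)) * W.totient
          ≤ L ^ 3 * (4 * L ^ 3 * (2 * L) + 8 * Real.exp (L / 2) * (2 * L)) * Real.exp (L / 700) := by
            rw [hsqrt]
            have := hφle.trans hWle
            gcongr
        _ ≤ X := by rw [← hexpL]; exact h2
    have b3 : X / W.totient ≤ 20 * (M / W.totient) := by
      rw [mul_div_assoc']
      gcongr
      linarith
    calc Y * (E + (4 * Y * Real.log (4 * X) + 4 * Real.sqrt X * Real.log (4 * X)))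
        ≤ Y * ((W2.totient : ℝ) * E0) + Y * (4 * Y * Real.log (4 * X) + 8 * Real.sqrt X * Real.log (4 * X)) := by
          rw [hE]
          nlinarith
      _ ≤ X / W.totient + X / W.totient := add_le_add b1 b2
      _ ≤ _ := by linarith
  have hLM : |LPhi X - M| ≤ ε / 4 * M := by
    refine h1.trans ?_
    nlinarith
  rw [abs_le] at hLM
  have hnu := sum_nu X (by linarith) W 0 hW0 (by
    have : (400 : ℝ) ≤ 400 / ε := by
      rw [le_div_iff₀ hε]; nlinarith
    nlinarith [Real.exp_pos (L / 700)])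
  rw [abs_le] at hnu
  set N1 := ∑ n ∈ Icc 1 ⌊3 * X⌋₊, nu X W 0 n with hN1
  have hMW : 5 ≤ ε / 4 * (M / W) := by
    have c1 : 400 / ε * W ≤ X := by
      refine le_trans ?_ h4
      gcongr
    have c2 : 400 * W ≤ ε * X := by
      calc 400 * (W : ℝ) = ε * (400 / ε * W) := by field_simp
        _ ≤ ε * X := by gcongr
    have c3 : 20 ≤ ε * (M / W) := by
      rw [mul_div_assoc', le_div_iff₀ hWr]
      nlinarith
    linarith
  have hMW' : M * (1 / (W : ℝ)) = M / W := by ring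
  rw [hMW'] at hnu
  refine ⟨hM0, fun Q _ => ?_, by linarith [hnu.1], by linarith [hnu.2]⟩
  have hmat := matrix_set X (by linarith) W Y (by linarith) hWp E hEb Q
  rw [abs_le] at hmat
  set V : ℝ := (vq Q W Y : ℝ) with hV
  have hV0 : 0 ≤ V := Nat.cast_nonneg _
  have hK0 : 0 < M / W.totient := by positivity
  constructor
  · have d1 : (1 - ε / 4) * V * (M / W.totient) ≤ V * (LPhi X * (1 / W.totient)) := by
      have : (1 - ε / 4) * M ≤ LPhi X := by linarith [hLM.1]
      calc (1 - ε / 4) * V * (M / W.totient) = V * (((1 - ε / 4) * M) * (1 / W.totient)) := by ring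
        _ ≤ _ := by gcongr
    linarith [hmat.1]
  · have d1 : V * (LPhi X * (1 / W.totient)) ≤ (1 + ε / 4) * V * (M / W.totient) := by
      have : LPhi X ≤ (1 + ε / 4) * M := by linarith [hLM.2]
      calc V * (LPhi X * (1 / W.totient)) ≤ V * (((1 + ε / 4) * M) * (1 / W.totient)) := by gcongr
        _ = _ := by ring
    linarith [hmat.2]

end Pool.Agent.U53.MS
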