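import Mathlib

set_option autoImplicit false

/-!
# Integers composed of primes of a given set: upper and lower bounds
-/

namespace Pool.Agent.U53.MS

open Finset Filter Topology
open scoped ArithmeticFunction

open Classical in
/-- the integers `1 ≤ m ≤ z` all of whose prime factors satisfy `A` -/
noncomputable def FF (A : ℕ → Prop) (z : ℕ) : Finset ℕ := (Icc 1 z).filter (fun m => ∀ p, p.Prime → p ∣ m → A p)

open Classical in
/-- the primes `p ≤ z` with `A` -/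
noncomputable def PP (A : ℕ → Prop) (z : ℕ) : Finset ℕ := (Icc 1 z).filter (fun p => p.Prime ∧ A p)

lemma mem_FF {A : ℕ → Prop} {z m : ℕ} : m ∈ FF A z ↔ (1 ≤ m ∧ m ≤ z) ∧ ∀ p, p.Prime → p ∣ m → A p := by
  classical
  unfold FF
  rw [mem_filter, mem_Icc]

lemma mem_PP {A : ℕ → Prop} {z p : ℕ} : p ∈ PP A z ↔ p ≤ z ∧ p.Prime ∧ A p := by
  classical
  unfold PP
  rw [mem_filter, mem_Icc]
  constructor
  · rintro ⟨⟨_, h1⟩, h2⟩
    exact ⟨h1, h2⟩
  · rintro ⟨h1, h2⟩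
    exact ⟨⟨h2.1.one_lt.le, h1⟩, h2⟩

/-- the completely multiplicative function `1 / n` -/
noncomputable def inv1 : ℕ →* ℝ where
  toFun n := ((n : ℝ))⁻¹
  map_one' := by simp
  map_mul' a b := by push_cast; rw [mul_inv]

lemma sum_FF_le (A : ℕ → Prop) (z : ℕ) : ∑ m ∈ FF A z, (1 : ℝ) / m ≤ ∏ p ∈ PP A z, (1 - 1 / (p : ℝ))⁻¹ := by
  classical
  have h := (EulerProduct.summable_and_hasSum_factoredNumbers_prod_filter_prime_geometric (f := inv1)
    (fun {p} hp => by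
      show ‖((p : ℝ))⁻¹‖ < 1
      rw [norm_inv, Real.norm_of_nonneg (Nat.cast_nonneg p)]
      exact inv_lt_one_of_one_lt₀ (by exact_mod_cast hp.one_lt)) (PP A z)).2
  have h1 : HasSum ((Nat.factoredNumbers (PP A z)).indicator (fun m : ℕ => inv1 m))
      (∏ p ∈ (PP A z).filter Nat.Prime, (1 - inv1 p)⁻¹) := by
    rw [← hasSum_subtype_iff_indicator]
    exact h
  have h2 := sum_le_hasSum (FF A z) (fun i _ => by
    apply Set.indicator_nonneg
    intro m _
    show 0 ≤ ((m : ℝ))⁻¹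
    positivity) h1
  have e1 : ∑ m ∈ FF A z, (Nat.factoredNumbers (PP A z)).indicator (fun m : ℕ => inv1 m) m =
      ∑ m ∈ FF A z, (1 : ℝ) / m := by
    refine sum_congr rfl fun m hm => ?_
    rw [mem_FF] at hm
    rw [Set.indicator_of_mem]
    · show ((m : ℝ))⁻¹ = _
      rw [one_div]
    · refine ⟨by omega, fun p hp => ?_⟩
      have hpp := Nat.prime_of_mem_primeFactorsList hp
      have hd := Nat.dvd_of_mem_primeFactorsList hp
      rw [mem_PP]
      exact ⟨(Nat.le_of_dvd (by omega) hd).trans hm.1.2, hpp, hm.2 p hpp hd⟩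
  have e2 : ∏ p ∈ (PP A z).filter Nat.Prime, (1 - inv1 p)⁻¹ = ∏ p ∈ PP A z, (1 - 1 / (p : ℝ))⁻¹ := by
    rw [filter_true_of_mem fun p hp => (mem_PP.1 hp).2.1]
    refine prod_congr rfl fun p _ => ?_
    show (1 - ((p : ℝ))⁻¹)⁻¹ = _
    rw [one_div]
  rw [e1, e2] at h2
  exact h2

lemma tele (z : ℕ) : ∑ n ∈ Icc 2 z, (1 : ℝ) / ((n : ℝ) * (n - 1)) ≤ 1 := by
  rcases Nat.lt_or_ge z 2 with h | h
  · rw [Icc_eq_empty (by omega)]
    simp
  have key : ∑ n ∈ Icc 2 z, (1 : ℝ) / ((n : ℝ) * (n - 1)) ≤ 1 - 1 / (z : ℝ) := by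
    induction z, h using Nat.le_induction with
    | base => norm_num
    | succ z hz ih =>
      have hz0 : (2 : ℝ) ≤ z := by exact_mod_cast hz
      rw [sum_Icc_succ_top (by omega)]
      push_cast
      have e1 : (1 : ℝ) / (((z : ℝ) + 1) * ((z : ℝ) + 1 - 1)) = 1 / (z : ℝ) - 1 / ((z : ℝ) + 1) := by
        have h1 : (z : ℝ) ≠ 0 := by linarith
        have h2 : (z : ℝ) + 1 ≠ 0 := by linarith
        rw [add_sub_cancel_right, div_sub_div _ _ h1 h2]
        congr 1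
        · ring
        · ring
      rw [e1]
      linarith
  have : (0 : ℝ) ≤ 1 / (z : ℝ) := by positivity
  linarith

lemma prod_le_exp (P : Finset ℕ) (hP : ∀ p ∈ P, p.Prime) :
    ∏ p ∈ P, (1 - 1 / (p : ℝ))⁻¹ ≤ Real.exp (1 + ∑ p ∈ P, (1 : ℝ) / p) := by
  classical
  have h1 : ∀ p ∈ P, (1 - 1 / (p : ℝ))⁻¹ ≤ Real.exp (1 / (p : ℝ) + 1 / ((p : ℝ) * (p - 1))) := by
    intro p hp
    have h2 : (2 : ℝ) ≤ p := by exact_mod_cast (hP p hp).two_le
    have e1 : (1 - 1 / (p : ℝ))⁻¹ = (1 / (p : ℝ) + 1 / ((p : ℝ) * (p - 1))) + 1 := by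
      have : (p : ℝ) - 1 ≠ 0 := by linarith
      have h3 : 1 - 1 / (p : ℝ) = ((p : ℝ) - 1) / p := by field_simp
      rw [h3, inv_div]
      field_simp
      ring
    rw [e1]
    exact Real.add_one_le_exp _
  have h0 : ∀ p ∈ P, 0 ≤ (1 - 1 / (p : ℝ))⁻¹ := by
    intro p hp
    have h2 : (2 : ℝ) ≤ p := by exact_mod_cast (hP p hp).two_le
    rw [inv_nonneg, sub_nonneg, div_le_one (by linarith)]
    linarith
  refine (prod_le_prod h0 h1).trans ?_
  rw [← Real.exp_sum, sum_add_distrib]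
  apply Real.exp_le_exp.2
  have h3 : ∑ p ∈ P, (1 : ℝ) / ((p : ℝ) * (p - 1)) ≤ 1 := by
    refine le_trans ?_ (tele (P.sup id))
    apply sum_le_sum_of_subset_of_nonneg
    · intro p hp
      rw [mem_Icc]
      exact ⟨(hP p hp).two_le, Finset.le_sup (f := id) hp⟩
    · intro n hn _
      have : (2 : ℝ) ≤ n := by exact_mod_cast (mem_Icc.1 hn).1
      have : 0 ≤ (n : ℝ) * (n - 1) := by nlinarith
      positivity
  linarith

lemma sum_FF_le_exp (A : ℕ → Prop) (z : ℕ) :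
    ∑ m ∈ FF A z, (1 : ℝ) / m ≤ Real.exp (1 + ∑ p ∈ PP A z, (1 : ℝ) / p) :=
  (sum_FF_le A z).trans (prod_le_exp _ fun _ hp => (mem_PP.1 hp).2.1)

lemma psi_nat_le (n : ℕ) : ∑ d ∈ Icc 1 n, Λ d ≤ 6 * n := by
  have h := Chebyshev.psi_le_const_mul_self (x := (n : ℝ)) (Nat.cast_nonneg n)
  unfold Chebyshev.psi at h
  rw [Nat.floor_natCast] at h
  have e : Ioc 0 n = Icc 1 n := by
    ext m
    simp only [mem_Ioc, mem_Icc]
    omega
  rw [e] at h
  have h2 : Real.log 4 ≤ 2 := by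
    rw [show (4 : ℝ) = 2 ^ 2 by norm_num, Real.log_pow]
    have := Real.log_two_lt_d9
    push_cast
    linarith
  have : (0 : ℝ) ≤ n := Nat.cast_nonneg n
  nlinarith

/-- sums of divisor sums over `FF` -/
lemma sum_div_le (A : ℕ → Prop) (z : ℕ) (f : ℕ → ℝ) (hf : ∀ n, 0 ≤ f n) :
    ∑ m ∈ FF A z, ∑ d ∈ m.divisors, f d ≤ ∑ e ∈ FF A z, ∑ d ∈ Icc 1 (z / e), f d := by
  classical
  have h1 : ∑ m ∈ FF A z, ∑ d ∈ m.divisors, f d =
      ∑ d ∈ Icc 1 z, ∑ m ∈ (FF A z).filter (fun m => d ∣ m), f d := by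
    apply sum_comm'
    intro m d
    rw [mem_filter, mem_FF, Nat.mem_divisors, mem_Icc]
    constructor
    · rintro ⟨h1, h2, h3⟩
      exact ⟨⟨h1, h2⟩, Nat.pos_of_dvd_of_pos h2 (by omega), (Nat.le_of_dvd (by omega) h2).trans h1.1.2⟩
    · rintro ⟨⟨h1, h2⟩, h3⟩
      exact ⟨h1, h2, by omega⟩
  have h2 : ∑ e ∈ FF A z, ∑ d ∈ Icc 1 (z / e), f d =
      ∑ d ∈ Icc 1 z, ∑ e ∈ (FF A z).filter (fun e => e * d ≤ z), f d := by
    apply sum_comm'
    intro e d
    rw [mem_filter, mem_FF, mem_Icc, mem_Icc]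
    constructor
    · rintro ⟨h1, h2, h3⟩
      have h4 : e * d ≤ z := by
        rw [mul_comm]
        exact (Nat.le_div_iff_mul_le (by omega)).1 h3
      exact ⟨⟨h1, h4⟩, h2, (Nat.le_mul_of_pos_left d (by omega)).trans h4⟩
    · rintro ⟨⟨h1, h2⟩, h3, h4⟩
      refine ⟨h1, h3, ?_⟩
      rw [Nat.le_div_iff_mul_le (by omega), mul_comm]
      exact h2
  rw [h1, h2]
  refine sum_le_sum fun d hd => ?_
  rw [mem_Icc] at hd
  rw [sum_const, sum_const, nsmul_eq_mul, nsmul_eq_mul]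
  apply mul_le_mul_of_nonneg_right _ (hf d)
  rw [Nat.cast_le]
  apply card_le_card_of_injOn (fun m => m / d)
  · intro m hm
    rw [mem_coe, mem_filter, mem_FF] at hm
    obtain ⟨⟨h3, h4⟩, ⟨k, rfl⟩⟩ := hm
    have hd0 : 0 < d := by omega
    rw [mem_coe, mem_filter, mem_FF]
    simp only [Nat.mul_div_cancel_left k hd0]
    refine ⟨⟨⟨?_, ?_⟩, fun p hp hpk => h4 p hp (hpk.mul_left d)⟩, by rw [mul_comm]; exact h3.2⟩
    · rcases Nat.eq_zero_or_pos k with h | h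
      · subst h; simp at h3
      · exact h
    · exact (Nat.le_mul_of_pos_left k hd0).trans h3.2
  · intro a ha b hb hab
    rw [mem_coe, mem_filter] at ha hb
    have hab' : a / d = b / d := hab
    obtain ⟨k, rfl⟩ := ha.2
    obtain ⟨l, rfl⟩ := hb.2
    rw [Nat.mul_div_cancel_left k (by omega), Nat.mul_div_cancel_left l (by omega)] at hab'
    rw [hab']

/-- upper bound -/
theorem upper (A : ℕ → Prop) (z : ℕ) (hz : 1 ≤ z) :
    ((FF A z).card : ℝ) * Real.log z ≤ 7 * z * ∑ m ∈ FF A z, (1 : ℝ) / m := by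
  classical
  have hz0 : (0 : ℝ) < z := by exact_mod_cast hz
  have h1 : ((FF A z).card : ℝ) * Real.log z = ∑ m ∈ FF A z, Real.log z := by
    rw [sum_const, nsmul_eq_mul]
  have h2 : ∑ m ∈ FF A z, Real.log z ≤ ∑ m ∈ FF A z, (Real.log m + z * (1 / m)) := by
    refine sum_le_sum fun m hm => ?_
    rw [mem_FF] at hm
    have hm0 : (0 : ℝ) < m := by exact_mod_cast (show 0 < m by omega)
    have h3 := Real.log_le_sub_one_of_pos (x := (z : ℝ) / m) (by positivity)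
    rw [Real.log_div hz0.ne' hm0.ne'] at h3
    have e1 : (z : ℝ) * (1 / m) = z / m := by ring
    rw [e1]
    linarith
  have h3 : ∑ m ∈ FF A z, Real.log m ≤ 6 * z * ∑ m ∈ FF A z, (1 : ℝ) / m := by
    have h4 : ∑ m ∈ FF A z, Real.log m = ∑ m ∈ FF A z, ∑ d ∈ m.divisors, Λ d :=
      sum_congr rfl fun m _ => ArithmeticFunction.vonMangoldt_sum.symm
    rw [h4]
    refine (sum_div_le A z (fun d => Λ d) fun n => ArithmeticFunction.vonMangoldt_nonneg).trans ?_
    rw [mul_sum]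
    refine sum_le_sum fun m hm => ?_
    rw [mem_FF] at hm
    have hm0 : (0 : ℝ) < m := by exact_mod_cast (show 0 < m by omega)
    refine (psi_nat_le _).trans ?_
    have h5 : (((z / m : ℕ)) : ℝ) ≤ (z : ℝ) / m := Nat.cast_div_le
    calc 6 * (((z / m : ℕ)) : ℝ) ≤ 6 * ((z : ℝ) / m) := by linarith
      _ = 6 * z * (1 / m) := by ring
  rw [h1]
  refine h2.trans ?_
  rw [sum_add_distrib, ← mul_sum]
  linarith

/-- factorisation -/
lemma exists_fac (A : ℕ → Prop) (m : ℕ) : m ≠ 0 → ∃ g b : ℕ, g * b = m ∧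
    (∀ p, p.Prime → p ∣ g → A p) ∧ (∀ p, p.Prime → p ∣ b → ¬ A p) := by
  induction m using Nat.recOnMul with
  | zero => intro h; exact absurd rfl h
  | one =>
    intro _
    refine ⟨1, 1, rfl, fun p hp h => ?_, fun p hp h => ?_⟩
    · exact absurd (Nat.dvd_one.1 h) hp.one_lt.ne'
    · exact absurd (Nat.dvd_one.1 h) hp.one_lt.ne'
  | prime p hp =>
    intro _
    by_cases h : A p
    · refine ⟨p, 1, mul_one p, fun q hq hqp => ?_, fun q hq hq1 => ?_⟩
      · rw [(Nat.prime_dvd_prime_iff_eq hq hp).1 hqp]; exact h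
      · exact absurd (Nat.dvd_one.1 hq1) hq.one_lt.ne'
    · refine ⟨1, p, one_mul p, fun q hq hq1 => ?_, fun q hq hqp => ?_⟩
      · exact absurd (Nat.dvd_one.1 hq1) hq.one_lt.ne'
      · rw [(Nat.prime_dvd_prime_iff_eq hq hp).1 hqp]; exact h
  | mul a b iha ihb =>
    intro hab
    obtain ⟨g1, b1, e1, h1, h2⟩ := iha (left_ne_zero_of_mul hab)
    obtain ⟨g2, b2, e2, h3, h4⟩ := ihb (right_ne_zero_of_mul hab)
    refine ⟨g1 * g2, b1 * b2, by rw [← e1, ← e2]; ring, fun p hp hd => ?_, fun p hp hd => ?_⟩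
    · rcases hp.dvd_mul.1 hd with h | h
      · exact h1 p hp h
      · exact h3 p hp h
    · rcases hp.dvd_mul.1 hd with h | h
      · exact h2 p hp h
      · exact h4 p hp h

lemma log_le_mul (A : ℕ → Prop) (w : ℕ) (hw : 1 ≤ w) :
    Real.log w ≤ (∑ g ∈ FF A w, (1 : ℝ) / g) * ∑ b ∈ FF (fun p => ¬ A p) w, (1 : ℝ) / b := by
  classical
  have h1 : Real.log w ≤ ∑ m ∈ Icc 1 w, (1 : ℝ) / m := by
    have h := log_add_one_le_harmonic w
    have h2 : Real.log w ≤ Real.log ((w + 1 : ℕ) : ℝ) := by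
      apply Real.log_le_log (by exact_mod_cast hw)
      push_cast
      linarith
    have h3 : ((harmonic w : ℚ) : ℝ) = ∑ m ∈ Icc 1 w, (1 : ℝ) / m := by
      rw [harmonic_eq_sum_Icc]
      push_cast
      refine sum_congr rfl fun m _ => ?_
      rw [one_div]
    rw [← h3]
    exact h2.trans h
  refine h1.trans ?_
  rw [sum_mul_sum, ← sum_product']
  choose! g b hgb using fun (m : ℕ) (hm : m ≠ 0) => exists_fac A m hm
  have h2 : ∀ m ∈ Icc 1 w, (1 : ℝ) / m = (fun x : ℕ × ℕ => (1 : ℝ) / x.1 * (1 / x.2)) (g m, b m) := by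
    intro m hm
    rw [mem_Icc] at hm
    have e := (hgb m (by omega)).1
    show (1 : ℝ) / m = 1 / (g m : ℝ) * (1 / (b m : ℝ))
    rw [one_div_mul_one_div]
    congr 1
    exact_mod_cast e.symm
  have h3 : Set.InjOn (fun m => (g m, b m)) (Icc 1 w : Finset ℕ) := by
    intro m hm n hn h
    rw [mem_coe, mem_Icc] at hm hn
    have e1 := (hgb m (by omega)).1
    have e2 := (hgb n (by omega)).1
    have e3 : (g m, b m) = (g n, b n) := h
    rw [Prod.mk.injEq] at e3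
    rw [← e1, ← e2, e3.1, e3.2]
  rw [sum_congr rfl h2, ← sum_image (f := fun x : ℕ × ℕ => (1 : ℝ) / x.1 * (1 / x.2)) h3]
  apply sum_le_sum_of_subset_of_nonneg
  · intro x hx
    rw [mem_image] at hx
    obtain ⟨m, hm, rfl⟩ := hx
    rw [mem_Icc] at hm
    obtain ⟨e1, e2, e3⟩ := hgb m (by omega)
    have hg0 : 1 ≤ g m := Nat.one_le_iff_ne_zero.2 (left_ne_zero_of_mul (by rw [e1]; omega))
    have hb0 : 1 ≤ b m := Nat.one_le_iff_ne_zero.2 (right_ne_zero_of_mul (by rw [e1]; omega))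
    rw [mem_product, mem_FF, mem_FF]
    refine ⟨⟨⟨hg0, ?_⟩, e2⟩, ⟨⟨hb0, ?_⟩, e3⟩⟩
    · calc g m ≤ g m * b m := Nat.le_mul_of_pos_right _ hb0
        _ ≤ w := by rw [e1]; exact hm.2
    · calc b m ≤ g m * b m := Nat.le_mul_of_pos_left _ hg0
        _ ≤ w := by rw [e1]; exact hm.2
  · intro x _ _
    positivity

/-- lower bound -/
theorem lower (A : ℕ → Prop) (z : ℕ) :
    ∑ e ∈ FF A z, ∑ p ∈ PP A (z / e), Real.log p ≤ ((FF A z).card : ℝ) * Real.log z := by
  classical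
  have h1 : ∀ m ∈ FF A z, ∑ p ∈ (PP A z).filter (fun p => p ∣ m), Real.log p ≤ Real.log z := by
    intro m hm
    rw [mem_FF] at hm
    have hm0 : 0 < m := by omega
    have h2 : ∑ p ∈ (PP A z).filter (fun p => p ∣ m), Real.log p =
        Real.log ((∏ p ∈ (PP A z).filter (fun p => p ∣ m), p : ℕ) : ℝ) := by
      push_cast
      rw [Real.log_prod]
      intro p hp
      exact_mod_cast (mem_PP.1 (mem_filter.1 hp).1).2.1.ne_zero
    rw [h2]
    have h3 : ∏ p ∈ (PP A z).filter (fun p => p ∣ m), p ∣ m := by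
      refine (prod_dvd_prod_of_subset _ m.primeFactors _ ?_).trans (Nat.prod_primeFactors_dvd m)
      intro p hp
      rw [mem_filter, mem_PP] at hp
      exact Nat.mem_primeFactors.2 ⟨hp.1.2.1, hp.2, hm0.ne'⟩
    have h4 := Nat.le_of_dvd hm0 h3
    have h5 : 0 < ∏ p ∈ (PP A z).filter (fun p => p ∣ m), p := Nat.pos_of_dvd_of_pos h3 hm0
    exact Real.log_le_log (by exact_mod_cast h5) (by exact_mod_cast h4.trans hm.1.2)
  have h2 : ∑ m ∈ FF A z, ∑ p ∈ (PP A z).filter (fun p => p ∣ m), Real.log p ≤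
      ((FF A z).card : ℝ) * Real.log z := by
    refine (sum_le_sum h1).trans ?_
    rw [sum_const, nsmul_eq_mul]
  refine le_trans ?_ h2
  have h3 : ∑ m ∈ FF A z, ∑ p ∈ (PP A z).filter (fun p => p ∣ m), Real.log p =
      ∑ p ∈ PP A z, ∑ m ∈ (FF A z).filter (fun m => p ∣ m), Real.log p := by
    apply sum_comm'
    intro m p
    rw [mem_filter, mem_filter]
    tauto
  have h4 : ∑ e ∈ FF A z, ∑ p ∈ PP A (z / e), Real.log p =
      ∑ p ∈ PP A z, ∑ e ∈ (FF A z).filter (fun e => e * p ≤ z), Real.log p := by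
    apply sum_comm'
    intro e p
    rw [mem_filter, mem_FF, mem_PP, mem_PP]
    constructor
    · rintro ⟨h1, h2, h3⟩
      have h4 : e * p ≤ z := by
        rw [mul_comm]
        exact (Nat.le_div_iff_mul_le (by omega)).1 h2
      exact ⟨⟨h1, h4⟩, (Nat.le_mul_of_pos_left p (by omega)).trans h4, h3⟩
    · rintro ⟨⟨h1, h2⟩, h3, h4⟩
      refine ⟨h1, ?_, h4⟩
      rw [Nat.le_div_iff_mul_le (by omega), mul_comm]
      exact h2
  rw [h3, h4]
  refine sum_le_sum fun p hp => ?_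
  rw [mem_PP] at hp
  have hp0 := hp.2.1.pos
  rw [sum_const, sum_const, nsmul_eq_mul, nsmul_eq_mul]
  apply mul_le_mul_of_nonneg_right _ (Real.log_nonneg (by exact_mod_cast hp.2.1.one_lt.le))
  rw [Nat.cast_le]
  apply card_le_card_of_injOn (fun e => e * p)
  · intro e he
    rw [mem_coe, mem_filter, mem_FF] at he
    rw [mem_coe, mem_filter, mem_FF]
    refine ⟨⟨⟨Nat.mul_pos (by omega) hp0, he.2⟩, fun q hq hd => ?_⟩, Dvd.intro_left e rfl⟩
    rcases hq.dvd_mul.1 hd with h | h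
    · exact he.1.2 q hq h
    · rw [(Nat.prime_dvd_prime_iff_eq hq hp.2.1).1 h]
      exact hp.2.2
  · intro a _ b _ hab
    exact Nat.eq_of_mul_eq_mul_right hp0 hab

end Pool.Agent.U53.MS
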