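import Pool.Agent.U53.MS.Rows
import Pool.Agent.U53.MS.Num
import Pool.Agent.U53.MS.Inst

set_option autoImplicit false

/-!
# Rows in which almost all the primes are `≡ 1 mod N`
-/

namespace Pool.Agent.U53.MS

open Finset Filter Topology
open Pool.Agent.H378R2
open Pool.Agent.H510R2.Maier

/-- bad primes of the modulus -/
noncomputable def PB (N : ℕ) (X : ℝ) (S : Finset ℕ) (ps : ℕ) : Finset ℕ := (PW X S ps).filter (fun p => ¬ Gd N p)

lemma mem_PB {N : ℕ} {X : ℝ} {S : Finset ℕ} {ps p : ℕ} :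
    p ∈ PB N X S ps ↔ (p ≤ yy X ∧ p.Prime ∧ p ∉ S ∧ p ≠ ps) ∧ ¬ Gd N p := by
  unfold PB
  rw [mem_filter, mem_PW]

lemma vq_eq (N : ℕ) (X : ℝ) (S : Finset ℕ) (ps Y : ℕ) (Q : ℕ → Prop) [DecidablePred Q] :
    vq Q (∏ p ∈ PB N X S ps, p) Y = ((FF (All (Gd N) (yy X) S ps) Y).filter Q).card := by
  classical
  have key : ∀ h : ℕ, h.Coprime (∏ p ∈ PB N X S ps, p) ↔ ∀ p, p.Prime → p ∣ h → All (Gd N) (yy X) S ps p := by
    intro h
    rw [Nat.coprime_prod_right_iff]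
    constructor
    · intro hc p hp hd
      by_contra hA
      unfold All at hA
      push Not at hA
      obtain ⟨a1, a2, a3, a4⟩ := hA
      have h1 : p ∈ PB N X S ps := mem_PB.2 ⟨⟨a2, hp, a3, a4⟩, a1⟩
      exact hp.one_lt.ne' (Nat.Coprime.eq_one_of_dvd (hc p h1).symm hd)
    · intro hA p hp
      obtain ⟨⟨b1, b2, b3, b4⟩, b5⟩ := mem_PB.1 hp
      apply Nat.Coprime.symm
      rw [Nat.Prime.coprime_iff_not_dvd b2]
      intro hd
      rcases hA p b2 hd with c | c | c | c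
      · exact b5 c
      · omega
      · exact b3 c
      · exact b4 c
  unfold vq
  congr 1
  ext h
  rw [mem_filter, mem_filter, mem_filter, mem_Icc, mem_FF, key h]
  tauto

open Classical in
lemma markov (s : Finset ℕ) (ν f : ℕ → ℝ) (hν0 : ∀ n ∈ s, 0 ≤ ν n) (hν1 : ∀ n ∈ s, ν n ≤ 1)
    (hf : ∀ n ∈ s, 0 ≤ f n) (T : ℝ) (hT : 0 < T) (h : ∑ n ∈ s, ν n * f n ≤ T / 2 * ∑ n ∈ s, ν n) :
    1 / 2 * ∑ n ∈ s, ν n ≤ ((s.filter (fun n => ν n ≠ 0 ∧ f n ≤ T)).card : ℝ) := by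
  have h1 : ∑ n ∈ s, ν n ≤ ((s.filter (fun n => ν n ≠ 0 ∧ f n ≤ T)).card : ℝ) + 1 / T * ∑ n ∈ s, ν n * f n := by
    rw [mul_sum, card_filter]
    push_cast
    rw [← sum_add_distrib]
    refine sum_le_sum fun n hn => ?_
    have a0 := hν0 n hn
    have a1 := hν1 n hn
    have a2 := hf n hn
    have a3 : 0 ≤ 1 / T * (ν n * f n) := by positivity
    split_ifs with hc
    · linarith
    · rw [not_and_or, not_not] at hc
      rcases hc with hc | hc
      · rw [hc]; simp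
      · rw [zero_add, one_div, ← div_eq_inv_mul, le_div_iff₀ hT]
        exact mul_le_mul_of_nonneg_left (not_le.1 hc).le a0
  have h2 : 1 / T * ∑ n ∈ s, ν n * f n ≤ 1 / 2 * ∑ n ∈ s, ν n := by
    rw [one_div, inv_mul_le_iff₀ hT]
    linarith
  linarith

open Classical in
lemma many (s : Finset ℕ) (ν f : ℕ → ℝ) (hν0 : ∀ n ∈ s, 0 ≤ ν n) (hν1 : ∀ n ∈ s, ν n ≤ 1)
    (T C : ℝ) (hT : 0 ≤ T) (hC : 0 ≤ C) (hf : ∀ n ∈ s, ν n ≠ 0 → f n ≤ C) :
    ∑ n ∈ s, ν n * f n - T * ∑ n ∈ s, ν n ≤ C * ((s.filter (fun n => ν n ≠ 0 ∧ T ≤ f n)).card : ℝ) := by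
  rw [mul_sum, ← sum_sub_distrib, card_filter]
  push_cast
  rw [mul_sum]
  refine sum_le_sum fun n hn => ?_
  have a0 := hν0 n hn
  have a1 := hν1 n hn
  split_ifs with hc
  · have a2 := hf n hn hc.1
    have a3 : 0 ≤ T * ν n := by positivity
    have a4 : ν n * f n ≤ 1 * C := mul_le_mul a1 a2 (hT.trans hc.2) zero_le_one
    linarith
  · rw [not_and_or, not_not] at hc
    rcases hc with hc | hc
    · rw [hc]; simp
    · have : f n ≤ T := (not_le.1 hc).le
      nlinarith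

lemma nu_le_one (X : ℝ) (W a n : ℕ) : nu X W a n ≤ 1 := by
  unfold nu
  split_ifs
  · exact Phi_le_one _
  · exact zero_le_one

lemma nu_ne_zero {X : ℝ} (hX : 0 < X) {W n : ℕ} (h : nu X W 0 n ≠ 0) : W ∣ n ∧ X < n ∧ (n : ℝ) < 3 * X := by
  by_contra hcon
  apply h
  by_cases hd : W ∣ n
  · exact nu_eq_zero hX (fun h' => hcon ⟨hd, h'⟩)
  · unfold nu
    rw [if_neg]
    intro h'
    exact hd ((Nat.modEq_zero_iff_dvd).1 h')

lemma tq_le (Q : ℕ → Prop) [DecidablePred Q] (n Y : ℕ) (X : ℝ) (hX : 1 ≤ X) (h : ((n + Y : ℕ) : ℝ) ≤ 4 * X) :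
    tq Q n Y ≤ Y * Real.log (4 * X) := by
  unfold tq
  have hl : 0 ≤ Real.log (4 * X) := Real.log_nonneg (by linarith)
  have h1 : ∑ k ∈ (Icc 1 Y).filter Q, th (n + k) ≤ ∑ k ∈ (Icc 1 Y).filter Q, Real.log (4 * X) := by
    refine sum_le_sum fun k hk => ?_
    rw [mem_filter, mem_Icc] at hk
    unfold th
    split_ifs with hp
    · apply Real.log_le_log (by exact_mod_cast hp.pos)
      refine le_trans ?_ h
      exact_mod_cast (by omega : n + k ≤ n + Y)
    · exact hl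
  refine h1.trans ?_
  rw [sum_const, nsmul_eq_mul]
  have h4 : (((Icc 1 Y).filter Q).card : ℝ) ≤ Y := by
    have := Finset.card_filter_le (Icc 1 Y) Q
    rw [Nat.card_Icc] at this
    exact_mod_cast (by omega : ((Icc 1 Y).filter Q).card ≤ Y)
  gcongr

lemma ev_sz : ∀ᶠ L : ℝ in atTop, 240 * L ^ 2 * Real.exp (99 / 100 * L) * Real.exp (L / 700) ≤ Real.exp L := by
  have h := (isLittleO_pow_exp_pos_mul_atTop (k := 2) (show (0 : ℝ) < 1 / 200 by norm_num)).bound
    (show (0 : ℝ) < 1 / 240 by norm_num)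
  filter_upwards [h, eventually_ge_atTop (0 : ℝ)] with L h1 h2
  rw [Real.norm_of_nonneg (by positivity), Real.norm_of_nonneg (Real.exp_pos _).le] at h1
  have h3 : 240 * L ^ 2 ≤ Real.exp (1 / 200 * L) := by linarith
  calc 240 * L ^ 2 * Real.exp (99 / 100 * L) * Real.exp (L / 700) ≤
      Real.exp (1 / 200 * L) * Real.exp (99 / 100 * L) * Real.exp (L / 700) := by gcongr
    _ = Real.exp (1 / 200 * L + 99 / 100 * L + L / 700) := by rw [Real.exp_add, Real.exp_add]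
    _ ≤ Real.exp L := by
        apply Real.exp_le_exp.2
        linarith

variable {δ CG CM cθ : ℝ} {z₀ : ℕ}

lemma ratio_bound (N : ℕ) (H : Dens (Gd N) δ CG CM cθ z₀) (X : ℝ) (S : Finset ℕ) (ps : ℕ) (hy : 3 ≤ yy X)
    (hly : Real.log (yy X : ℝ) ≤ Real.log (Real.log X)) :
    ((∏ p ∈ PB N X S ps, p : ℕ) : ℝ) ≤ Real.exp (1 + (CM + CG)) * (Real.log (Real.log X)) ^ (1 - δ) *
      ((∏ p ∈ PB N X S ps, p).totient : ℝ) := by
  classical
  set P := PB N X S ps with hP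
  have hPp : ∀ p ∈ P, p.Prime := fun p hp => (mem_PB.1 hp).1.2.1
  have hy0 : (3 : ℝ) ≤ yy X := by exact_mod_cast hy
  have hly1 : 1 ≤ Real.log (yy X : ℝ) := by
    rw [Real.le_log_iff_exp_le (by linarith)]
    linarith [Real.exp_one_lt_d9]
  have h1 := totient_prod P hPp
  have h2 := prod_le_exp P hPp
  have hBE : 0 < BE P := by
    unfold BE
    apply prod_pos
    intro p hp
    have h2 : (2 : ℝ) ≤ p := by exact_mod_cast (hPp p hp).two_le
    have : 1 / (p : ℝ) ≤ 1 / 2 := one_div_le_one_div_of_le (by norm_num) h2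
    linarith
  have h3 : ∏ p ∈ P, (1 - 1 / (p : ℝ))⁻¹ = (BE P)⁻¹ := by
    unfold BE
    rw [prod_inv_distrib]
  rw [h3] at h2
  have h4 : ∑ p ∈ P, (1 : ℝ) / p ≤ (1 - δ) * Real.log (Real.log (Real.log X)) + (CM + CG) := by
    have h5 := (abs_le.1 (H.all (yy X) hy)).2
    have h6 := (abs_le.1 (H.good (yy X) hy)).1
    have h7 : ∑ p ∈ P, (1 : ℝ) / p + ∑ p ∈ PP (Gd N) (yy X), (1 : ℝ) / p ≤
        ∑ p ∈ (Icc 1 (yy X)).filter Nat.Prime, (1 : ℝ) / p := by
      rw [← sum_union]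
      · apply sum_le_sum_of_subset_of_nonneg
        · intro p hp
          rw [mem_filter, mem_Icc]
          rw [mem_union, mem_PP] at hp
          rcases hp with hp | hp
          · have := (mem_PB.1 hp).1
            exact ⟨⟨this.2.1.one_lt.le, this.1⟩, this.2.1⟩
          · exact ⟨⟨hp.2.1.one_lt.le, hp.1⟩, hp.2.1⟩
        · intro p _ _
          positivity
      · rw [disjoint_left]
        intro p hp hp'
        exact (mem_PB.1 hp).2 (mem_PP.1 hp').2.2
    have h8 : Real.log (Real.log (yy X : ℝ)) ≤ Real.log (Real.log (Real.log X)) :=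
      Real.log_le_log (by linarith) hly
    have h9 : (1 - δ) * Real.log (Real.log (yy X : ℝ)) ≤ (1 - δ) * Real.log (Real.log (Real.log X)) :=
      mul_le_mul_of_nonneg_left h8 (by linarith [H.hδ1])
    linarith
  have h5 : (BE P)⁻¹ ≤ Real.exp (1 + (CM + CG)) * (Real.log (Real.log X)) ^ (1 - δ) := by
    refine h2.trans ?_
    rw [Real.rpow_def_of_pos (by linarith), ← Real.exp_add]
    apply Real.exp_le_exp.2
    linarith
  have hφ : ((∏ p ∈ P, p : ℕ) : ℝ) = (BE P)⁻¹ * ((∏ p ∈ P, p).totient : ℝ) := by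
    rw [h1]
    field_simp
  rw [hφ]
  gcongr

lemma ratio_lower (N : ℕ) (H : Dens (Gd N) δ CG CM cθ z₀) (X : ℝ) (S : Finset ℕ) (ps : ℕ) (hy : 3 ≤ yy X)
    (hS : ∑ q ∈ S, (1 : ℝ) / q ≤ 1) :
    Real.exp (-(CM + CG + 2)) * (Real.log (yy X : ℝ)) ^ (1 - δ) * ((∏ p ∈ PB N X S ps, p).totient : ℝ) ≤
      ((∏ p ∈ PB N X S ps, p : ℕ) : ℝ) := by
  classical
  set P := PB N X S ps with hP
  have hPp : ∀ p ∈ P, p.Prime := fun p hp => (mem_PB.1 hp).1.2.1
  have hy0 : (3 : ℝ) ≤ yy X := by exact_mod_cast hy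
  have hly1 : 1 ≤ Real.log (yy X : ℝ) := by
    rw [Real.le_log_iff_exp_le (by linarith)]
    linarith [Real.exp_one_lt_d9]
  have h1 := totient_prod P hPp
  have hlt : ∀ p ∈ P, 0 < 1 - 1 / (p : ℝ) := by
    intro p hp
    have h2 : (2 : ℝ) ≤ p := by exact_mod_cast (hPp p hp).two_le
    have : 1 / (p : ℝ) ≤ 1 / 2 := one_div_le_one_div_of_le (by norm_num) h2
    linarith
  have hBE : 0 < BE P := by
    unfold BE
    exact prod_pos hlt
  have h3 : BE P ≤ Real.exp (-∑ p ∈ P, (1 : ℝ) / p) := by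
    unfold BE
    rw [← sum_neg_distrib, Real.exp_sum]
    apply prod_le_prod (fun p hp => (hlt p hp).le)
    intro p _
    have := Real.add_one_le_exp (-(1 / (p : ℝ)))
    linarith
  have h4 : (1 - δ) * Real.log (Real.log (yy X : ℝ)) - (CM + CG + 2) ≤ ∑ p ∈ P, (1 : ℝ) / p := by
    have h5 := (abs_le.1 (H.all (yy X) hy)).1
    have h6 := (abs_le.1 (H.good (yy X) hy)).2
    have hnn : ∀ p : ℕ, (0 : ℝ) ≤ 1 / p := fun p => by positivity
    have hun : ∀ A B : Finset ℕ, ∑ p ∈ A ∪ B, (1 : ℝ) / p ≤ ∑ p ∈ A, (1 : ℝ) / p + ∑ p ∈ B, (1 : ℝ) / p := by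
      intro A B
      have h := sum_union_inter (s₁ := A) (s₂ := B) (f := fun p : ℕ => (1 : ℝ) / p)
      have h2 : 0 ≤ ∑ p ∈ A ∩ B, (1 : ℝ) / p := sum_nonneg fun p _ => hnn p
      linarith
    have h7 : (Icc 1 (yy X)).filter Nat.Prime ⊆ (P ∪ PP (Gd N) (yy X)) ∪ (S ∪ {ps}) := by
      intro p hp
      rw [mem_filter, mem_Icc] at hp
      rw [mem_union, mem_union, mem_union, mem_singleton, mem_PP]
      by_cases h8 : p ∈ S
      · exact Or.inr (Or.inl h8)
      · by_cases h9 : p = ps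
        · exact Or.inr (Or.inr h9)
        · by_cases h10 : Gd N p
          · exact Or.inl (Or.inr ⟨hp.1.2, hp.2, h10⟩)
          · exact Or.inl (Or.inl (mem_PB.2 ⟨⟨hp.1.2, hp.2, h8, h9⟩, h10⟩))
    have h8 := sum_le_sum_of_subset_of_nonneg (f := fun p : ℕ => (1 : ℝ) / p) h7 fun p _ _ => hnn p
    have h9 := hun (P ∪ PP (Gd N) (yy X)) (S ∪ {ps})
    have h10 := hun P (PP (Gd N) (yy X))
    have h11 := hun S {ps}
    rw [sum_singleton] at h11
    have h12 : (1 : ℝ) / ps ≤ 1 := by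
      rcases Nat.eq_zero_or_pos ps with h | h
      · rw [h]; simp
      · rw [div_le_one (by exact_mod_cast h)]
        exact_mod_cast h
    linarith
  have h5 : Real.exp (-(CM + CG + 2)) * (Real.log (yy X : ℝ)) ^ (1 - δ) * BE P ≤ 1 := by
    calc Real.exp (-(CM + CG + 2)) * (Real.log (yy X : ℝ)) ^ (1 - δ) * BE P ≤
        Real.exp (-(CM + CG + 2)) * (Real.log (yy X : ℝ)) ^ (1 - δ) * Real.exp (-∑ p ∈ P, (1 : ℝ) / p) := by
          gcongr
      _ = Real.exp (-(CM + CG + 2) + Real.log (Real.log (yy X : ℝ)) * (1 - δ) + -∑ p ∈ P, (1 : ℝ) / p) := by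
          rw [Real.rpow_def_of_pos (by linarith), ← Real.exp_add, ← Real.exp_add]
      _ ≤ Real.exp 0 := by
          apply Real.exp_le_exp.2
          linarith
      _ = 1 := Real.exp_zero
  have hW0 : (0 : ℝ) ≤ (∏ p ∈ P, p : ℕ) := Nat.cast_nonneg _
  rw [h1]
  calc Real.exp (-(CM + CG + 2)) * (Real.log (yy X : ℝ)) ^ (1 - δ) * ((∏ p ∈ P, p : ℕ) * BE P) =
      (Real.exp (-(CM + CG + 2)) * (Real.log (yy X : ℝ)) ^ (1 - δ) * BE P) * (∏ p ∈ P, p : ℕ) := by ring
    _ ≤ 1 * (∏ p ∈ P, p : ℕ) := mul_le_mul_of_nonneg_right h5 hW0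
    _ = _ := one_mul _

lemma dvd_prod (N : ℕ) (hN : 2 ≤ N) (hsq : Squarefree N) (X : ℝ) (S : Finset ℕ) (ps Z : ℕ)
    (hS : GoodS X S) (hps : GoodP Z ps) (hZ : N ≤ Z) (hy : N ≤ yy X) (hz : N ≤ z2 X) :
    N ∣ ∏ p ∈ PB N X S ps, p := by
  classical
  have h1 : N.primeFactors ⊆ PB N X S ps := by
    intro p hp
    have hpp := Nat.prime_of_mem_primeFactors hp
    have hd := Nat.dvd_of_mem_primeFactors hp
    have hle : p ≤ N := Nat.le_of_dvd (by omega) hd
    refine mem_PB.2 ⟨⟨by omega, hpp, fun h => ?_, fun h => ?_⟩, fun h => ?_⟩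
    · have := (hS.1 p h).2.1
      omega
    · rcases hps with h2 | ⟨_, h2⟩
      · rw [h, h2] at hpp
        exact Nat.not_prime_one hpp
      · omega
    · have h2 : p ≡ 1 [MOD p] := Nat.ModEq.of_dvd hd h
      have h3 : p ∣ 1 := (Nat.ModEq.dvd_iff h2 dvd_rfl).1 dvd_rfl
      exact hpp.one_lt.ne' (Nat.dvd_one.1 h3)
  have h2 := Nat.prod_primeFactors_of_squarefree hsq
  have h3 : ∏ p ∈ N.primeFactors, p ∣ ∏ p ∈ PB N X S ps, p := Finset.prod_dvd_prod_of_subset _ _ _ h1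
  rwa [h2] at h3

set_option maxHeartbeats 4000000 in
open Classical in
/-- the two kinds of rows -/
theorem rows_one (N : ℕ) (hN : 2 ≤ N) (hsq : Squarefree N) : ∃ c₁ : ℝ, 0 < c₁ ∧ ∀ ε : ℝ, 0 < ε →
    ∃ η : ℝ, 0 < η ∧ η ≤ 1 ∧ ∃ X0 : ℝ, ∀ X : ℝ, X0 ≤ X →
      X ^ (99 / 100 : ℝ) ≤ (((Icc 1 ⌊3 * X⌋₊).filter (fun n : ℕ => N ∣ n ∧ X < n ∧ (n : ℝ) < 3 * X ∧
        tq (fun h => ¬ Gd N h) n ⌊(Real.log X) ^ (1 + η)⌋₊ ≤ ε * ⌊(Real.log X) ^ (1 + η)⌋₊)).card : ℝ) ∧
      X ^ (99 / 100 : ℝ) ≤ (((Icc 1 ⌊3 * X⌋₊).filter (fun n : ℕ => N ∣ n ∧ X < n ∧ (n : ℝ) < 3 * X ∧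
        c₁ * ⌊(Real.log X) ^ (1 + η)⌋₊ ≤ tq (fun _ => True) n ⌊(Real.log X) ^ (1 + η)⌋₊ ∧
        tq (fun h => ¬ Gd N h) n ⌊(Real.log X) ^ (1 + η)⌋₊ ≤
          ε * tq (fun _ => True) n ⌊(Real.log X) ^ (1 + η)⌋₊)).card : ℝ) := by
  obtain ⟨CG, CM, cθ, z₀, H⟩ := dens N hN
  obtain ⟨K, c', hK, hc', hmain⟩ := main_num N H
  set δ : ℝ := 1 / (N.totient : ℝ) with hδ
  set K3 := Real.exp (1 + (CM + CG)) with hK3
  have hK30 : 0 < K3 := Real.exp_pos _
  set K4 := Real.exp (-(CM + CG + 2)) with hK4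
  have hK40 : 0 < K4 := Real.exp_pos _
  refine ⟨c' * K4 / 8, by positivity, fun ε hε => ?_⟩
  set ε₁ := min (ε / 10) (3 * ε / (16 * K * K3)) with hε₁
  have hε₁0 : 0 < ε₁ := lt_min (by positivity) (by positivity)
  have hε₁a : ε₁ ≤ ε / 10 := min_le_left _ _
  have hε₁b : ε₁ * (16 * K * K3) ≤ 3 * ε := by
    have : ε₁ ≤ 3 * ε / (16 * K * K3) := min_le_right _ _
    rwa [le_div_iff₀ (by positivity)] at this
  obtain ⟨η, hη0, hη1, Z0, hev⟩ := hmain ε₁ hε₁0
  obtain ⟨X1, hX1⟩ := rows_gen 1 one_pos le_rfl (max Z0 N)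
  have hlogtop : Tendsto Real.log atTop atTop := Real.tendsto_log_atTop
  have hLL : Tendsto (fun X : ℝ => Real.log (Real.log X)) atTop atTop := hlogtop.comp hlogtop
  have ev3 : ∀ᶠ X : ℝ in atTop, (Real.log X) ^ 3 ≤ X / 2 := by
    have h1 := (Real.isLittleO_pow_log_id_atTop (n := 3)).bound (show (0 : ℝ) < 1 / 2 by norm_num)
    filter_upwards [h1, eventually_ge_atTop (1 : ℝ)] with X h2 h3
    rw [Real.norm_of_nonneg (pow_nonneg (Real.log_nonneg h3) 3), id, Real.norm_of_nonneg (by linarith)] at h2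
    linarith
  have hall := (((hlogtop.eventually hev).and (eventually_ge_atTop X1)).and
    ((hlogtop.eventually_ge_atTop (10000000 : ℝ)).and (hlogtop.eventually_ge_atTop (1000 * (N : ℝ))))).and
    ((((hLL.eventually_ge_atTop (5 / η)).and (hLL.eventually_ge_atTop ((N : ℝ) + 1))).and
      ((hlogtop.eventually_ge_atTop (320 + 320 / ε)).and ((hlogtop.eventually_ge_atTop (54 / ε₁)).and
        (eventually_ge_atTop (40 : ℝ))))).and ((hlogtop.eventually ev_sz).and ev3))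
  obtain ⟨X0, hX0⟩ := eventually_atTop.1 hall
  refine ⟨η, hη0, hη1, X0, fun X hX => ?_⟩
  obtain ⟨⟨⟨h1, h2⟩, h3, h4⟩, ⟨⟨h5, h6⟩, h7, h8, h9⟩, h10, h11⟩ := hX0 X hX
  obtain ⟨ps, S, hps, hS, hrow⟩ := hX1 X h2
  obtain ⟨g1, g2, g3, g4, g5, g6, g7, g8, g9, g10, g11, g12⟩ := sizes η hη0 hη1 (Real.log X) h3 h5
  set L := Real.log X with hL
  set Y := ⌊L ^ (1 + η)⌋₊ with hY
  have hL0 : 0 < L := by linarith
  have hX0' : 0 < X := by linarith
  have hps2 : ps = 1 ∨ (ps.Prime ∧ max Z0 N < ps) := hps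
  obtain ⟨c1, c2, c3, c4⟩ := h1 S ps (max Z0 N) (le_max_left _ _) hS.2 hps2
  have hyy : ⌊L / 1000⌋₊ = yy X := rfl
  rw [hyy] at c1 c2 c3 c4 g1 g2 g3 g4 g5 g11 g12
  have hYL : (Y : ℝ) ≤ L ^ 2 := by
    refine g8.trans ?_
    have := Real.rpow_le_rpow_of_exponent_le (show (1 : ℝ) ≤ L by linarith) (show 1 + η ≤ (2 : ℝ) by linarith)
    rwa [Real.rpow_two] at this
  have hYL3 : (Y : ℝ) ≤ L ^ 3 := by
    refine hYL.trans ?_
    apply pow_le_pow_right₀ (by linarith) (by norm_num)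
  have hYX : (Y : ℝ) ≤ X := by linarith
  obtain ⟨hM, hQ, hn1, hn2⟩ := hrow (PB N X S ps) (filter_subset _ _) Y hYL3
  have hratio := ratio_bound N H X S ps g1 g5
  have hSle : ∑ q ∈ S, (1 : ℝ) / q ≤ 1 := by
    refine hS.2.trans ?_
    have h12 : (6 : ℝ) ≤ Real.log L := by
      have h13 : Real.log 10000000 ≤ Real.log L := Real.log_le_log (by norm_num) h3
      refine le_trans ?_ h13
      rw [Real.le_log_iff_exp_le (by norm_num)]
      have h14 : Real.exp 1 ^ 6 ≤ (2.72 : ℝ) ^ 6 := by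
        have := Real.exp_one_lt_d9
        have := Real.exp_pos 1
        gcongr
        linarith
      rw [← Real.exp_nat_mul] at h14
      norm_num at h14 ⊢
      linarith
    have h15 : (0 : ℝ) < (Real.log L) ^ 2 := by positivity
    rw [div_le_one h15]
    nlinarith only [h12]
  have hratio2 := ratio_lower N H X S ps g1 hSle
  have hNd := dvd_prod N hN hsq X S ps (max Z0 N) hS hps (le_max_right _ _) (by
    have : (N : ℝ) ≤ L / 1000 := by linarith
    exact Nat.le_floor this) (by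
    have h10 : (N : ℝ) ≤ (Real.log L) ^ 3 := by
      have h11 : (N : ℝ) + 1 ≤ Real.log L := h6
      have h12 : (0 : ℝ) ≤ N := Nat.cast_nonneg N
      have h13 : 1 ≤ Real.log L := by linarith only [h11, h12]
      have h14 : Real.log L ^ 1 ≤ Real.log L ^ 3 := pow_le_pow_right₀ h13 (by norm_num)
      rw [pow_one] at h14
      linarith only [h11, h14]
    have h11 : (N : ℝ) ≤ (z2 X : ℝ) := h10.trans (Nat.le_ceil _)
    exact_mod_cast h11)
  have hBV := hQ (fun h => ¬ Gd N h)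
  have hVV := hQ (fun _ => True)
  obtain ⟨-, -, -, -, hWle0⟩ := Pool.Agent.N610.MS.ROWS.sub_decomp (filter_subset (fun p => ¬ Gd N p) (PW X S ps))
  have hWle : ((∏ p ∈ PB N X S ps, p : ℕ) : ℝ) ≤ Real.exp (L / 700) :=
    hWle0.trans (WW_le X (by linarith) S ps)
  rw [vq_eq] at hBV hVV
  rw [filter_true_of_mem (fun _ _ => trivial)] at hVV
  set W := ∏ p ∈ PB N X S ps, p with hW
  set V : ℝ := ((FF (All (Gd N) (yy X) S ps) Y).card : ℝ) with hV
  set B : ℝ := (((FF (All (Gd N) (yy X) S ps) Y).filter (fun h => ¬ Gd N h)).card : ℝ) with hB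
  have hMge := MPhi_ge X h9
  set M := MPhi X with hMd
  have hW0 : 0 < W := Finset.prod_pos fun p hp => (mem_PB.1 hp).1.2.1.pos
  have hWr : (0 : ℝ) < W := by exact_mod_cast hW0
  have hφ0 : (0 : ℝ) < W.totient := by exact_mod_cast Nat.totient_pos.2 hW0
  have hφle : (W.totient : ℝ) ≤ W := by exact_mod_cast Nat.totient_le W
  have hMφ : 0 < M / W.totient := by positivity
  have hMW : 0 < M / W := by positivity
  have hMM : M / W ≤ M / W.totient := div_le_div_of_nonneg_left hM.le hφ0 hφle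
  have hVL : L ≤ V := by
    refine le_trans ?_ c2
    have := Real.rpow_le_rpow_of_exponent_le (show (1 : ℝ) ≤ L by linarith) (show (1 : ℝ) ≤ 1 + η / 2 by linarith)
    rwa [Real.rpow_one] at this
  have hℓ0 : 0 < Real.log L := by
    have : (0 : ℝ) ≤ N := Nat.cast_nonneg N
    linarith
  have hX99 : X ^ (99 / 100 : ℝ) = Real.exp (99 / 100 * L) := by
    rw [Real.rpow_def_of_pos hX0']
    congr 1
    ring
  have hexpL : Real.exp L = X := Real.exp_log hX0'
  have hMWbig : 12 * L ^ 2 * X ^ (99 / 100 : ℝ) ≤ M / W := by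
    rw [le_div_iff₀ hWr, hX99]
    calc 12 * L ^ 2 * Real.exp (99 / 100 * L) * W ≤ 12 * L ^ 2 * Real.exp (99 / 100 * L) * Real.exp (L / 700) := by
          gcongr
      _ = (240 * L ^ 2 * Real.exp (99 / 100 * L) * Real.exp (L / 700)) / 20 := by ring
      _ ≤ Real.exp L / 20 := by gcongr
      _ ≤ M := by rw [hexpL]; linarith
  have hX990 : 0 < X ^ (99 / 100 : ℝ) := Real.rpow_pos_of_pos hX0' _
  have hL2 : 1 ≤ L ^ 2 := one_le_pow₀ (by linarith)
  refine ⟨?_, ?_⟩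
  · -- few bad primes
    have hmk := markov (Icc 1 ⌊3 * X⌋₊) (fun n => nu X W 0 n) (fun n => tq (fun h => ¬ Gd N h) n Y)
      (fun n _ => nu_nonneg _ _ _ _) (fun n _ => nu_le_one _ _ _ _) (fun n _ => tq_nonneg _ _ _) (ε * Y)
      (by
        have : (0 : ℝ) < Y := by linarith
        positivity) (by
        refine hBV.2.trans ?_
        have m1 : (1 + 1 / 4) * (B * (M / W.totient)) + 40 * (M / W.totient) ≤
            2 * ε₁ * V * (M / W.totient) := by
          have m2 : (1 + 1 / 4) * B + 40 ≤ 2 * ε₁ * V := by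
            have m3 : 54 ≤ ε₁ * L := by
              rw [div_le_iff₀ hε₁0] at h8
              linarith
            have m4 : ε₁ * L ≤ ε₁ * V := mul_le_mul_of_nonneg_left hVL hε₁0.le
            linarith
          calc (1 + 1 / 4) * (B * (M / W.totient)) + 40 * (M / W.totient) =
              ((1 + 1 / 4) * B + 40) * (M / W.totient) := by ring
            _ ≤ 2 * ε₁ * V * (M / W.totient) := by gcongr
        refine m1.trans ?_
        have m5 : V * (W : ℝ) ≤ K * K3 * Y * W.totient := by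
          calc V * (W : ℝ) ≤ (K * Y * (Real.log L) ^ (δ - 1)) *
                (K3 * (Real.log L) ^ (1 - δ) * W.totient) := by
                apply mul_le_mul c3 hratio hWr.le (by positivity)
            _ = K * K3 * Y * W.totient * ((Real.log L) ^ (δ - 1) * (Real.log L) ^ (1 - δ)) := by ring
            _ = _ := by
                rw [← Real.rpow_add hℓ0]
                simp
        have m6 : V * (M / W.totient) ≤ K * K3 * Y * (M / W) := by
          rw [mul_div_assoc', mul_div_assoc', div_le_div_iff₀ hφ0 hWr]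
          calc V * M * W = (V * W) * M := by ring
            _ ≤ (K * K3 * Y * W.totient) * M := by gcongr
            _ = _ := by ring
        have hY0 : (0 : ℝ) ≤ Y := Nat.cast_nonneg _
        calc 2 * ε₁ * V * (M / W.totient) = 2 * ε₁ * (V * (M / W.totient)) := by ring
          _ ≤ 2 * ε₁ * (K * K3 * Y * (M / W)) := by gcongr
          _ = (ε₁ * (16 * K * K3)) / 8 * (Y * (M / W)) := by ring
          _ ≤ (3 * ε) / 8 * (Y * (M / W)) := by gcongr
          _ = ε * Y / 2 * ((1 - 1 / 4) * (M / W)) := by ring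
          _ ≤ ε * Y / 2 * ∑ n ∈ Icc 1 ⌊3 * X⌋₊, nu X W 0 n := by gcongr)
    have h12 : X ^ (99 / 100 : ℝ) ≤ 1 / 2 * ∑ n ∈ Icc 1 ⌊3 * X⌋₊, nu X W 0 n := by
      have : 12 * X ^ (99 / 100 : ℝ) ≤ M / W := by
        refine le_trans ?_ hMWbig
        calc 12 * X ^ (99 / 100 : ℝ) = 12 * 1 * X ^ (99 / 100 : ℝ) := by ring
          _ ≤ 12 * L ^ 2 * X ^ (99 / 100 : ℝ) := by gcongr
      linarith
    refine h12.trans (hmk.trans ?_)
    have hsub : (Icc 1 ⌊3 * X⌋₊).filter (fun n => nu X W 0 n ≠ 0 ∧ tq (fun h => ¬ Gd N h) n Y ≤ ε * Y) ⊆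
        (Icc 1 ⌊3 * X⌋₊).filter (fun n : ℕ => N ∣ n ∧ X < n ∧ (n : ℝ) < 3 * X ∧
          tq (fun h => ¬ Gd N h) n Y ≤ ε * Y) := by
      intro n hn
      rw [mem_filter] at hn ⊢
      obtain ⟨k1, k2, k3⟩ := nu_ne_zero hX0' hn.2.1
      exact ⟨hn.1, hNd.trans k1, k2, k3, hn.2.2⟩
    exact_mod_cast card_le_card hsub
  · -- many primes, few of them bad
    have hex : ∑ n ∈ Icc 1 ⌊3 * X⌋₊, nu X W 0 n * (tq (fun _ => True) n Y - 1 / ε * tq (fun h => ¬ Gd N h) n Y) =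
        ∑ n ∈ Icc 1 ⌊3 * X⌋₊, nu X W 0 n * tq (fun _ => True) n Y -
          1 / ε * ∑ n ∈ Icc 1 ⌊3 * X⌋₊, nu X W 0 n * tq (fun h => ¬ Gd N h) n Y := by
      rw [mul_sum, ← sum_sub_distrib]
      exact sum_congr rfl fun n _ => by ring
    have hV0 : 0 ≤ V := Nat.cast_nonneg _
    have hl4 : Real.log (4 * X) ≤ 2 * L := by
      rw [Real.log_mul (by norm_num) hX0'.ne']
      have : Real.log 4 ≤ 2 := by
        rw [show (4 : ℝ) = 2 ^ 2 by norm_num, Real.log_pow]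
        have := Real.log_two_lt_d9
        push_cast; linarith
      linarith
    have hmn := many (Icc 1 ⌊3 * X⌋₊) (fun n => nu X W 0 n)
      (fun n => tq (fun _ => True) n Y - 1 / ε * tq (fun h => ¬ Gd N h) n Y)
      (fun n _ => nu_nonneg _ _ _ _) (fun n _ => nu_le_one _ _ _ _) (V / 4 * (W / W.totient)) (2 * L * Y)
      (by positivity)
      (by positivity) (by
        intro n _ hn
        obtain ⟨k1, k2, k3⟩ := nu_ne_zero hX0' hn
        have h13 := tq_le (fun _ => True) n Y X (by linarith) (by push_cast; linarith)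
        have h14 : 0 ≤ 1 / ε * tq (fun h => ¬ Gd N h) n Y := mul_nonneg (by positivity) (tq_nonneg _ _ _)
        have h15 : (Y : ℝ) * Real.log (4 * X) ≤ 2 * L * Y := by
          calc (Y : ℝ) * Real.log (4 * X) ≤ Y * (2 * L) := by gcongr
            _ = 2 * L * Y := by ring
        linarith)
    rw [hex] at hmn
    have n1 : V / 4 * (W / W.totient) * ∑ n ∈ Icc 1 ⌊3 * X⌋₊, nu X W 0 n ≤ 5 / 16 * (V * (M / W.totient)) := by
      calc V / 4 * (W / W.totient) * ∑ n ∈ Icc 1 ⌊3 * X⌋₊, nu X W 0 n ≤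
          V / 4 * (W / W.totient) * ((1 + 1 / 4) * (M / W)) := by gcongr
        _ = 5 / 16 * (V * (M / W.totient)) := by
            field_simp
            ring
    have n2 : 1 / ε * ∑ n ∈ Icc 1 ⌊3 * X⌋₊, nu X W 0 n * tq (fun h => ¬ Gd N h) n Y ≤
        1 / ε * ((1 + 1 / 4) * (B * (M / W.totient)) + 40 * (M / W.totient)) := by
      have := hBV.2
      gcongr
    have n3 : V / 2 + 1 / ε * ((1 + 1 / 4) * B + 40) ≤ (1 - 1 / 4) * V - 40 := by
      have n4 : 1 / ε * ((1 + 1 / 4) * B) ≤ V / 8 := by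
        have n5 : (1 + 1 / 4) * B ≤ ε * (V / 8) := by
          calc (1 + 1 / 4) * B ≤ (1 + 1 / 4) * (ε₁ * V) := by gcongr
            _ ≤ (1 + 1 / 4) * (ε / 10 * V) := by gcongr
            _ = ε * (V / 8) := by ring
        rw [one_div, inv_mul_le_iff₀ hε]
        exact n5
      have n6 : 40 + 1 / ε * 40 ≤ V / 8 := by
        have : 320 + 320 / ε ≤ V := h7.trans hVL
        have e1 : 320 / ε = 8 * (1 / ε * 40) := by ring
        rw [e1] at this
        linarith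
      have e2 : 1 / ε * ((1 + 1 / 4) * B + 40) = 1 / ε * ((1 + 1 / 4) * B) + 1 / ε * 40 := by ring
      rw [e2]
      linarith
    have n7 := mul_le_mul_of_nonneg_right n3 hMφ.le
    have n8 := hVV.1
    have e3 : (V / 2 + 1 / ε * ((1 + 1 / 4) * B + 40)) * (M / W.totient) = V / 2 * (M / W.totient) +
        1 / ε * ((1 + 1 / 4) * (B * (M / W.totient)) + 40 * (M / W.totient)) := by ring
    have e4 : ((1 - 1 / 4) * V - 40) * (M / W.totient) =
        (1 - 1 / 4) * (V * (M / W.totient)) - 40 * (M / W.totient) := by ring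
    rw [e3, e4] at n7
    have n9 : 3 / 16 * (V * (M / W.totient)) ≤ 2 * L * Y *
        (((Icc 1 ⌊3 * X⌋₊).filter (fun n => nu X W 0 n ≠ 0 ∧
          V / 4 * (W / W.totient) ≤ tq (fun _ => True) n Y - 1 / ε * tq (fun h => ¬ Gd N h) n Y)).card : ℝ) := by
      have e5 : V / 2 * (M / W.totient) = 1 / 2 * (V * (M / W.totient)) := by ring
      rw [e5] at n7
      linarith
    have n10 : 3 / 16 * (L * (12 * L ^ 2 * X ^ (99 / 100 : ℝ))) ≤ 3 / 16 * (V * (M / W.totient)) := by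
      have := hMWbig.trans hMM
      gcongr
    have hY0 : (0 : ℝ) < Y := by linarith
    have n11 : 2 * L * Y * X ^ (99 / 100 : ℝ) ≤ 3 / 16 * (L * (12 * L ^ 2 * X ^ (99 / 100 : ℝ))) := by
      calc 2 * L * Y * X ^ (99 / 100 : ℝ) ≤ 2 * L * L ^ 2 * X ^ (99 / 100 : ℝ) := by gcongr
        _ ≤ 9 / 4 * L * L ^ 2 * X ^ (99 / 100 : ℝ) := by
            have h16 : 0 ≤ L * L ^ 2 * X ^ (99 / 100 : ℝ) := by positivity
            have h17 : 2 * L * L ^ 2 * X ^ (99 / 100 : ℝ) = 2 * (L * L ^ 2 * X ^ (99 / 100 : ℝ)) := by ring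
            have h18 : 9 / 4 * L * L ^ 2 * X ^ (99 / 100 : ℝ) = 9 / 4 * (L * L ^ 2 * X ^ (99 / 100 : ℝ)) := by ring
            rw [h17, h18]
            linarith only [h16]
        _ = _ := by ring
    have n12 := le_of_mul_le_mul_left (n11.trans (n10.trans n9)) (by positivity)
    refine n12.trans ?_
    have hlow : c' * K4 / 8 * Y ≤ V / 4 * (W / W.totient) := by
      have r1 : K4 * (Real.log L) ^ (1 - δ) / 2 ≤ W / W.totient := by
        rw [le_div_iff₀ hφ0]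
        refine le_trans ?_ hratio2
        have r2 : (Real.log L) ^ (1 - δ) / 2 ≤ (Real.log (yy X : ℝ)) ^ (1 - δ) := by
          have r3 : (Real.log L / 2) ^ (1 - δ) ≤ (Real.log (yy X : ℝ)) ^ (1 - δ) :=
            Real.rpow_le_rpow (by positivity) g4 (by linarith [H.hδ1])
          rw [Real.div_rpow hℓ0.le (by norm_num)] at r3
          refine le_trans ?_ r3
          have r4 : (2 : ℝ) ^ (1 - δ) ≤ 2 := by
            have := Real.rpow_le_rpow_of_exponent_le (show (1 : ℝ) ≤ 2 by norm_num)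
              (show 1 - δ ≤ 1 by linarith [H.hδ])
            rwa [Real.rpow_one] at this
          exact div_le_div_of_nonneg_left (by positivity) (by positivity) r4
        calc K4 * (Real.log L) ^ (1 - δ) / 2 * W.totient = K4 * ((Real.log L) ^ (1 - δ) / 2) * W.totient := by ring
          _ ≤ K4 * (Real.log (yy X : ℝ)) ^ (1 - δ) * W.totient := by gcongr
      calc c' * K4 / 8 * Y = c' * K4 / 8 * Y * ((Real.log L) ^ (δ - 1) * (Real.log L) ^ (1 - δ)) := by
            rw [← Real.rpow_add hℓ0]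
            simp
        _ = (c' * Y * (Real.log L) ^ (δ - 1)) / 4 * (K4 * (Real.log L) ^ (1 - δ) / 2) := by ring
        _ ≤ V / 4 * (W / W.totient) := by gcongr
    have hsub : (Icc 1 ⌊3 * X⌋₊).filter (fun n => nu X W 0 n ≠ 0 ∧
          V / 4 * (W / W.totient) ≤ tq (fun _ => True) n Y - 1 / ε * tq (fun h => ¬ Gd N h) n Y) ⊆
        (Icc 1 ⌊3 * X⌋₊).filter (fun n : ℕ => N ∣ n ∧ X < n ∧ (n : ℝ) < 3 * X ∧
          c' * K4 / 8 * Y ≤ tq (fun _ => True) n Y ∧
          tq (fun h => ¬ Gd N h) n Y ≤ ε * tq (fun _ => True) n Y) := by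
      intro n hn
      rw [mem_filter] at hn ⊢
      obtain ⟨k1, k2, k3⟩ := nu_ne_zero hX0' hn.2.1
      have hT0 : 0 ≤ tq (fun h => ¬ Gd N h) n Y := tq_nonneg _ _ _
      have k5 := hn.2.2
      have k6 : 0 ≤ 1 / ε * tq (fun h => ¬ Gd N h) n Y := by positivity
      have k8 : 0 ≤ V / 4 * (W / W.totient) := by positivity
      refine ⟨hn.1, hNd.trans k1, k2, k3, by linarith, ?_⟩
      have k7 : 1 / ε * tq (fun h => ¬ Gd N h) n Y ≤ tq (fun _ => True) n Y := by linarith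
      rw [one_div, inv_mul_le_iff₀ hε] at k7
      exact k7
    exact_mod_cast card_le_card hsub

end Pool.Agent.U53.MS
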